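import Pool.Agent.H51.EG.Def

open Finset

namespace Pool.Agent.H51.EG

theorem R_mono {k k' : ℕ} {x : ℚ} (h : R k x) (hk : k ≤ k') : R k' x := by
  obtain ⟨m, h1, h2, h3⟩ := h
  exact ⟨m, h1.trans hk, h2, h3⟩

theorem R_add {k k' : ℕ} {x y : ℚ} (hx : R k x) (hy : R k' y) : R (k + k') (x + y) := by
  obtain ⟨m, h1, h2, h3⟩ := hx
  obtain ⟨m', h1', h2', h3'⟩ := hy
  refine ⟨m + m', ?_, ?_, ?_⟩
  · rw [Multiset.card_add]; omega
  · intro n hn
    rcases Multiset.mem_add.1 hn with h | h
    · exact h2 n h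
    · exact h2' n h
  · rw [Multiset.map_add, Multiset.sum_add, h3, h3']

theorem R_unit {n : ℕ} (hn : 0 < n) : R 1 (1 / (n : ℚ)) :=
  ⟨{n}, by simp, by simpa using hn, by simp⟩

theorem R_zero : R 0 0 := ⟨0, by simp, by simp, by simp⟩

theorem R_div {k : ℕ} {x : ℚ} (h : R k x) {m : ℕ} (hm : 0 < m) : R k (x / m) := by
  obtain ⟨s, h1, h2, h3⟩ := h
  refine ⟨s.map (fun n => n * m), by simpa using h1, ?_, ?_⟩
  · intro n hn
    obtain ⟨a, ha, rfl⟩ := Multiset.mem_map.1 hn
    exact Nat.mul_pos (h2 a ha) hm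
  · rw [← h3, Multiset.map_map, div_eq_mul_inv, ← Multiset.sum_map_mul_right]
    congr 1
    refine Multiset.map_congr rfl fun a _ => ?_
    simp only [Function.comp]
    push_cast
    rw [one_div, one_div, mul_inv]

theorem Good.mono {k k' N A : ℕ} (h : Good k N A) (hk : k ≤ k') : Good k' N A :=
  fun B hB hN => R_mono (h B hB hN) hk

theorem Good.dvd {k N N' A : ℕ} (h : Good k N A) (hN : N ∣ N') : Good k N' A :=
  fun B hB hN' => h B hB (hN.trans hN')

theorem Good.of_mul {k N A v : ℕ} (hv : 0 < v) (h : Good k N (A * v)) : Good k N A := by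
  intro B hB hN
  have h1 := h (B * v) (Nat.mul_pos hB hv) (Dvd.dvd.mul_right hN v)
  have h2 : ((A * v : ℕ) : ℚ) / ((B * v : ℕ) : ℚ) = (A : ℚ) / B := by
    push_cast
    have : (v : ℚ) ≠ 0 := by exact_mod_cast hv.ne'
    rw [mul_div_mul_right _ _ this]
  rwa [h2] at h1

theorem Good.add {k k' N A A' : ℕ} (h : Good k N A) (h' : Good k' N A') :
    Good (k + k') N (A + A') := by
  intro B hB hN
  have := R_add (h B hB hN) (h' B hB hN)
  rwa [← add_div, ← Nat.cast_add] at this

theorem good_dvd {N v : ℕ} (hN : 0 < N) (hv : v ∣ N) : Good 1 N v := by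
  intro B hB hNB
  obtain ⟨c, hc⟩ := hv.trans hNB
  have hv0 : v ≠ 0 := by rintro rfl; simp at hc; omega
  have hc0 : 0 < c := by
    rcases Nat.eq_zero_or_pos c with rfl | h
    · simp at hc; omega
    · exact h
  have : (v : ℚ) / B = 1 / (c : ℚ) := by
    rw [hc]; push_cast
    have : (v : ℚ) ≠ 0 := by exact_mod_cast hv0
    field_simp
  rw [this]
  exact R_unit hc0

theorem good_one {N : ℕ} (hN : 0 < N) : Good 1 N 1 := good_dvd hN (one_dvd N)

/-- if `A ∣ v + e`, `v ∣ N` and `e` is good then `A` is good -/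
theorem good_step {k N A v e : ℕ} (hN : 0 < N) (hv : v ∣ N) (hA : A ∣ v + e)
    (he : Good k N e) : Good (k + 1) N A := by
  have hv0 : 0 < v := Nat.pos_of_dvd_of_pos hv hN
  obtain ⟨w, hw⟩ := hA
  have hw0 : 0 < w := by
    rcases Nat.eq_zero_or_pos w with rfl | h
    · simp at hw; omega
    · exact h
  have h1 : Good (k + 1) N (A * w) := by
    rw [← hw, add_comm v e]
    exact he.add (good_dvd hN hv)
  exact h1.of_mul hw0

theorem w1 : S_W1 := by
  intro k N Y U hN hU hY gs
  induction gs with
  | nil =>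
    intro _ B hB hNB A hA1 hA2
    simp only [List.prod_nil, mul_one, List.length_nil, add_zero] at hA2 ⊢
    exact hY A hA1 hA2 B hB hNB
  | cons g gs ih =>
    intro hg B hB hNB A hA1 hA2
    have ih' := ih (fun g' hg' => hg g' (List.mem_cons_of_mem _ hg'))
    obtain ⟨hgp, hgU⟩ := hg g List.mem_cons_self
    have hprod : 0 < gs.prod := by
      apply Nat.pos_of_ne_zero
      rw [Ne, List.prod_eq_zero_iff]
      intro h0
      exact (hg 0 (List.mem_cons_of_mem _ h0)).1.ne_zero rfl
    have hden : 0 < B * (g :: gs).prod := by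
      rw [List.prod_cons]; exact Nat.mul_pos hB (Nat.mul_pos hgp.pos hprod)
    rw [List.length_cons]
    by_cases hgA : g ∣ A
    · obtain ⟨A', rfl⟩ := hgA
      have hA' : 1 ≤ A' := by
        rcases Nat.eq_zero_or_pos A' with rfl | h
        · simp at hA1
        · exact h
      have hA3 : A' ≤ Y * gs.prod := by
        rw [List.prod_cons] at hA2
        have : g * A' ≤ g * (Y * gs.prod) := by nlinarith
        exact Nat.le_of_mul_le_mul_left this hgp.pos
      have h1 := ih' B hB hNB A' hA' hA3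
      have h2 : ((g * A' : ℕ) : ℚ) / ((B * (g :: gs).prod : ℕ) : ℚ) = (A' : ℚ) / ((B * gs.prod : ℕ) : ℚ) := by
        rw [List.prod_cons]
        push_cast
        have hg0 : (g : ℚ) ≠ 0 := by exact_mod_cast hgp.ne_zero
        have hB0 : (B : ℚ) ≠ 0 := by exact_mod_cast hB.ne'
        have hp0 : (gs.prod : ℚ) ≠ 0 := by exact_mod_cast hprod.ne'
        push_cast at hp0 ⊢
        field_simp
      rw [h2]
      exact R_mono h1 (by omega)
    · by_cases hAY : A ≤ Y
      · exact R_mono (hY A hA1 hAY _ hden (Dvd.dvd.mul_right hNB _)) (by omega)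
      · push Not at hAY
        obtain ⟨v, hvU, hv⟩ := hgU A hgA
        obtain ⟨hvN, hvY⟩ := hU v hvU
        have hvA : v < A := lt_of_le_of_lt hvY hAY
        have hdv : g ∣ A - v := (Nat.modEq_iff_dvd' hvA.le).1 hv
        obtain ⟨e, he⟩ := hdv
        have he1 : 1 ≤ e := by
          rcases Nat.eq_zero_or_pos e with rfl | h
          · simp at he; omega
          · exact h
        have he2 : e ≤ Y * gs.prod := by
          rw [List.prod_cons] at hA2
          have : g * e ≤ g * (Y * gs.prod) := by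
            rw [← he]
            calc A - v ≤ A := Nat.sub_le _ _
              _ ≤ Y * (g * gs.prod) := hA2
              _ = g * (Y * gs.prod) := by ring
          exact Nat.le_of_mul_le_mul_left this hgp.pos
        have h1 := ih' B hB hNB e he1 he2
        have h3 : Good 1 N v := good_dvd hN hvN
        have h4 := h3 _ hden (Dvd.dvd.mul_right hNB _)
        have h5 : (A : ℚ) / ((B * (g :: gs).prod : ℕ) : ℚ) =
            (e : ℚ) / ((B * gs.prod : ℕ) : ℚ) + (v : ℚ) / ((B * (g :: gs).prod : ℕ) : ℚ) := by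
          have hA' : (A : ℚ) = g * e + v := by
            have : A = g * e + v := by omega
            exact_mod_cast this
          rw [List.prod_cons, hA']
          push_cast
          have hg0 : (g : ℚ) ≠ 0 := by exact_mod_cast hgp.ne_zero
          have hB0 : (B : ℚ) ≠ 0 := by exact_mod_cast hB.ne'
          have hp0 : (gs.prod : ℚ) ≠ 0 := by exact_mod_cast hprod.ne'
          push_cast at hp0
          field_simp
        rw [h5]
        exact R_mono (R_add h1 h4) (by omega)

end Pool.Agent.H51.EG
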