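import Mathlib

/-! Project EGYPT (MP_9dd88f_nt): definitions and the statements of the modules.
Paper proof: egypt_proof.md in the team store. -/

open Finset

namespace Pool.Agent.H51.EG

/-- `x` is a sum of at most `k` unit fractions, repetitions allowed. -/
def R (k : ℕ) (x : ℚ) : Prop :=
  ∃ m : Multiset ℕ, m.card ≤ k ∧ (∀ n ∈ m, 0 < n) ∧ (m.map (fun n : ℕ => (1 : ℚ) / n)).sum = x

/-- `A / B` is a sum of at most `k` unit fractions for every multiple `B` of `N`. -/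
def Good (k N A : ℕ) : Prop := ∀ B : ℕ, 0 < B → N ∣ B → R k ((A : ℚ) / B)

/-- the `k`-sets of distinct unit fractions with sum 1 -/
def Sols (k : ℕ) : Set (Finset ℕ) :=
  {S | S.card = k ∧ (∀ n ∈ S, 0 < n) ∧ ∑ n ∈ S, (1 : ℚ) / n = 1}

noncomputable def F (k : ℕ) : ℕ := (Sols k).ncard

/-- the primes in `(2^l, 2^(l+3)]` -/
def Qs (l : ℕ) : Finset ℕ := (Ioc (2 ^ l) (2 ^ (l + 3))).filter Nat.Prime

/-- the sample space: `s` blocks of two elements of `Q` -/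
abbrev Om (Q : Finset ℕ) (s : ℕ) := Fin s → Bool → Q

/-- the product selected by `σ` -/
def u {Q : Finset ℕ} {s : ℕ} (ω : Om Q s) (σ : Fin s → Bool) : ℕ := ∏ i, (ω i (σ i) : ℕ)

/-- the product of the whole pool -/
def NN {Q : Finset ℕ} {s : ℕ} (ω : Om Q s) : ℕ := ∏ i, ∏ b, (ω i b : ℕ)

/-- average over the sample space -/
noncomputable def av {Q : Finset ℕ} {s : ℕ} (f : Om Q s → ℝ) : ℝ :=
  (∑ ω, f ω) / Fintype.card (Om Q s)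

/-- `A` is not exceptional for `Q`: all nontrivial character sums over `Q` are small -/
def NE (Q : Finset ℕ) (η : ℝ) (A : ℕ) : Prop :=
  ∀ χ : DirichletCharacter ℂ A, χ ≠ 1 → ‖∑ p ∈ Q, χ ((p : ℕ) : ZMod A)‖ ≤ η * (Q.card : ℝ)

/-- all prime factors of `A` exceed `z` -/
def Rough (z A : ℕ) : Prop := ∀ p : ℕ, p.Prime → p ∣ A → z < p

open Classical in
/-- the number of incidences `A ∣ u + e`, `(A, e) ∈ K` -/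
noncomputable def W (K : Finset (ℕ × ℕ)) (v : ℕ) : ℕ := (K.filter (fun k => k.1 ∣ v + k.2)).card

noncomputable def Z {Q : Finset ℕ} {s : ℕ} (K : Finset (ℕ × ℕ)) (ω : Om Q s) : ℝ :=
  ∑ σ : Fin s → Bool, (W K (u ω σ) : ℝ)

noncomputable def Gam (K : Finset (ℕ × ℕ)) : ℝ := ∑ k ∈ K, 1 / (Nat.totient k.1 : ℝ)

/-! ### Statements of the modules -/

/-- W1: dividing numerators by primes `g` of the denominator (induction on `gs`) -/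
def S_W1 : Prop := ∀ (k N Y : ℕ) (U : Finset ℕ), 0 < N → (∀ v ∈ U, v ∣ N ∧ v ≤ Y) →
  (∀ A, 1 ≤ A → A ≤ Y → Good k N A) → ∀ gs : List ℕ,
  (∀ g ∈ gs, g.Prime ∧ ∀ c : ℕ, ¬ g ∣ c → ∃ v ∈ U, v ≡ c [MOD g]) →
  ∀ B : ℕ, 0 < B → N ∣ B → ∀ A, 1 ≤ A → A ≤ Y * gs.prod →
  R (k + gs.length) ((A : ℚ) / ((B * gs.prod : ℕ) : ℚ))

/-- Takenouchi: a sum of at most `k` unit fractions below 1 is one with distinct terms -/
def S_TAK : Prop := ∀ (k : ℕ) (x : ℚ), R k x → x < 1 →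
  ∃ S : Finset ℕ, S.card ≤ k ∧ (∀ n ∈ S, 0 < n) ∧ ∑ n ∈ S, (1 : ℚ) / n = x

def S_FIN : Prop := ∀ k : ℕ, (Sols k).Finite

/-- split the largest denominator -/
def S_MONO : Prop := ∀ k : ℕ, 2 ≤ k → F k ≤ F (k + 1)

/-- if `1 - 1/n` is a sum of `K` unit fractions then the splittings
`1/n = 1/(n+a) + 1/(n+n^2/a)`, `a ∣ n`, `a < n`, give many solutions -/
def S_CNT : Prop := ∀ (K n : ℕ), 1 < n → R K (1 - 1 / (n : ℚ)) →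
  ∀ k, K + 2 ≤ k → n.divisors.card ≤ F k + K + 1

def S_BETA : Prop := ∀ a : ℕ, R (2 * a) (1 - 1 / ((2 ^ (2 ^ a) - 1 : ℕ) : ℚ))

/-- first derivative test for `Δ/n` -/
def S_EXP : Prop := ∀ (U V : ℕ) (Δ : ℝ), 1 ≤ U → U ≤ V → Δ ≠ 0 →
  ‖∑ n ∈ Ico U V, Complex.exp (2 * Real.pi * Complex.I * ((Δ / n : ℝ) : ℂ))‖ ≤
    16 * |Δ| / U + 4 * (V : ℝ) ^ 2 / |Δ|

/-- Fejer: if all fractional parts stay in `[0, 1-δ)` then some exponential sum is large -/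
def S_FEJ : Prop := ∀ (ι : Type) (J : Finset ι) (θ : ι → ℝ) (δ M : ℝ) (H : ℕ), 0 < δ → δ ≤ 1 → 0 ≤ M →
  (∀ j ∈ J, Int.fract (θ j) < 1 - δ) →
  (∀ h : ℕ, 1 ≤ h → h < H →
    ‖∑ j ∈ J, Complex.exp (2 * Real.pi * Complex.I * ((h * θ j : ℝ) : ℂ))‖ ≤ M) →
  (H : ℝ) * J.card ≤ J.card / δ ^ 2 + (H : ℝ) ^ 2 * M

/-- the start: a multiple `N g_1 ... g_(2r) t` of `N` just above `β` -/
def S_START : Prop := ∀ (N β μ d r : ℕ) (G : Finset ℕ), 0 < N → N ≤ 2 ^ d → 0 < μ → 0 < r →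
  (∀ g ∈ G, g.Prime ∧ 2 ^ μ < g ∧ g ≤ 2 ^ (μ + 3)) → 2 ^ μ ≤ 2 * μ * G.card →
  r * μ = 40 * d → 2 ^ (100 * d) ≤ β + 1 → β ≤ 2 ^ (101 * d) →
  (64 * μ * r) ^ (8 * r) * 2 ^ 100 ≤ 2 ^ d →
  ∃ gs : List ℕ, (∀ g ∈ gs, g ∈ G) ∧ gs.length = 2 * r ∧
    ∃ t : ℕ, β < N * gs.prod * t ∧ N * gs.prod * t ≤ β + gs.prod

/-- joint law of `u_σ mod A`, `u_τ mod B` (characters) -/
def S_CORR : Prop := ∀ (Q : Finset ℕ) (s : ℕ) (η : ℝ) (A B : ℕ), Q.Nonempty → 0 ≤ η → η ≤ 1 →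
  0 < A → 0 < B → NE Q η A → NE Q η B → (∀ p ∈ Q, Nat.Coprime p A) → (∀ p ∈ Q, Nat.Coprime p B) →
  ∀ (e f : ℕ), Nat.Coprime e A → Nat.Coprime f B → ∀ σ τ : Fin s → Bool,
  |av (fun ω : Om Q s => if A ∣ u ω σ + e ∧ B ∣ u ω τ + f then (1 : ℝ) else 0)
    - 1 / ((Nat.totient A : ℝ) * (Nat.totient B : ℝ))| ≤ η ^ (hammingDist σ τ)

/-- second moment -/
def S_SM : Prop := ∀ (Q : Finset ℕ) (s d : ℕ) (η D : ℝ) (K : Finset (ℕ × ℕ)), Q.Nonempty →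
  0 ≤ η → η ≤ 1 → d ≤ s → 1 ≤ D →
  (∀ k ∈ K, 0 < k.1 ∧ NE Q η k.1 ∧ (∀ p ∈ Q, Nat.Coprime p k.1) ∧ Nat.Coprime k.2 k.1) →
  (∀ (ω : Om Q s) (σ : Fin s → Bool), (W K (u ω σ) : ℝ) ≤ D) →
  av (fun ω : Om Q s => (Z K ω - 2 ^ s * Gam K) ^ 2) ≤
    3 * 4 ^ s * (K.card : ℝ) ^ 2 * η ^ d + 4 ^ d * (5 / 2) ^ s * D * (Gam K + K.card * η ^ d)

/-- few rough divisors -/
def S_RD : Prop := ∀ (z0 V v : ℕ), 1 ≤ z0 → 0 < v → v ≤ 2 ^ V → ∀ K : Finset ℕ,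
  (∀ A ∈ K, Rough (2 ^ z0) A ∧ A ∣ v) → K.card ≤ 2 ^ (V / z0)

/-- totient of a rough number -/
def S_PHI : Prop := ∀ (z0 y A : ℕ), 1 ≤ z0 → 0 < A → A ≤ 2 ^ y → Rough (2 ^ z0) A →
  2 * y ≤ 2 ^ z0 → (A : ℝ) / 2 ≤ Nat.totient A

/-- few exceptional moduli among the rough numbers (multiplicative large sieve) -/
def S_EXC : Prop := ∀ (lam y z0 : ℕ) (K : Finset ℕ), 1 ≤ lam → 1 ≤ z0 →
  2 ^ (16 * lam) ≤ 16 * lam * (Qs (16 * lam)).card →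
  128 * lam * (2 * y + 4) ≤ 2 ^ (2 * lam) →
  (∀ A ∈ K, 0 < A ∧ A ≤ 2 ^ y ∧ Rough (2 ^ z0) A ∧ (∀ p ∈ Qs (16 * lam), Nat.Coprime p A) ∧
    ¬ NE (Qs (16 * lam)) ((1 / 2) ^ lam) A) →
  K.card * 2 ^ (z0 / 2) ≤ 2 ^ (y + 4 * lam + 8)

/-- Brun's pure sieve: even numbers have many representations as a sum of two rough numbers -/
def S_REP : Prop := ∀ (a z0 n : ℕ), 2 ≤ a → 2 ≤ z0 → z0 ≤ 2 ^ a → 2 ^ (128 * a * z0 - 1) < n →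
  n ≤ 2 ^ (128 * a * z0) → 2 ∣ n → ∀ K : Finset ℕ,
  (∀ t : ℕ, 2 ^ (128 * a * z0 - 3) < t → t + 2 ^ (128 * a * z0 - 3) < n → Rough (2 ^ z0) t →
    Rough (2 ^ z0) (n - t) → t ∈ K) →
  2 ^ (128 * a * z0) ≤ K.card * 2 ^ (40 * a + 60)

/-- the classical upper bound -/
def S_UP : Prop := ∀ k : ℕ, 1 ≤ k → F k ≤ k ^ (2 ^ k)

/-- Chebyshev: primes in `(2^t, 2^(t+3)]` -/
def S_CHEB : Prop := ∀ t : ℕ, 10 ≤ t → 2 ^ t ≤ t * (Qs t).card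

end Pool.Agent.H51.EG
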