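import Pool.Agent.H51.EG.PoolA

open Finset

namespace Pool.Agent.H51.EG

theorem Gam_single (g e : ℕ) : Gam {(g, e)} = 1 / (Nat.totient g : ℝ) := by
  simp [Gam]

theorem W_single_le (g e v : ℕ) : (W {(g, e)} v : ℝ) ≤ 1 := by
  classical
  have : W {(g, e)} v ≤ 1 := by
    unfold W
    exact (Finset.card_filter_le _ _).trans (by simp)
  exact_mod_cast this

theorem num_g {X g t w : ℝ} (hX : 300 ≤ X) (hg0 : 0 < g) (hg : g ≤ 8 * X) (ht0 : 0 ≤ t)
    (ht : t ≤ 1 / X ^ 8) (_hw0 : 0 ≤ w) (hw : w ≤ 1 / X ^ 3) :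
    3 * t * g ^ 2 + w * (g + t * g ^ 2) ≤ 9 / X ^ 2 := by
  have hX0 : 0 < X := by linarith
  have hg2 : g ^ 2 ≤ 64 * X ^ 2 := by nlinarith
  have h1 : t * g ^ 2 ≤ 64 / X ^ 6 := by
    calc t * g ^ 2 ≤ 1 / X ^ 8 * (64 * X ^ 2) := mul_le_mul ht hg2 (by positivity) (by positivity)
      _ = 64 / X ^ 6 := by field_simp
  have h6 : (64 : ℝ) / X ^ 6 ≤ 1 / 1000 / X ^ 2 := by
    rw [div_div, div_le_div_iff₀ (by positivity) (by positivity)]
    have : (64000 : ℝ) ≤ X ^ 4 := by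
      calc (64000 : ℝ) ≤ 300 ^ 4 := by norm_num
        _ ≤ X ^ 4 := pow_le_pow_left₀ (by norm_num) hX 4
    have h2 : X ^ 6 = X ^ 4 * X ^ 2 := by ring
    nlinarith [mul_le_mul_of_nonneg_right this (by positivity : (0 : ℝ) ≤ X ^ 2)]
  have h3 : w * (g + t * g ^ 2) ≤ 1 / X ^ 3 * (8 * X + X / 100) := by
    apply mul_le_mul hw _ (by positivity) (by positivity)
    have : (1 : ℝ) / 1000 / X ^ 2 ≤ X / 100 := by
      rw [div_div, div_le_div_iff₀ (by positivity) (by positivity)]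
      nlinarith [mul_pos hX0 hX0, pow_pos hX0 3]
    linarith
  have h4 : 1 / X ^ 3 * (8 * X + X / 100) = (8 + 1 / 100) / X ^ 2 := by field_simp
  have h5 : 3 * t * g ^ 2 ≤ 3 * (1 / 1000 / X ^ 2) := by
    calc 3 * t * g ^ 2 = 3 * (t * g ^ 2) := by ring
      _ ≤ 3 * (1 / 1000 / X ^ 2) := by linarith
  have h7 : 3 * (1 / 1000 / X ^ 2) + (8 + 1 / 100) / X ^ 2 ≤ 9 / X ^ 2 := by
    rw [div_div, mul_one_div, ← sub_nonneg]
    have : 9 / X ^ 2 - (3 / (1000 * X ^ 2) + (8 + 1 / 100) / X ^ 2) = (987 / 1000) / X ^ 2 := by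
      field_simp
      norm_num
    rw [this]
    positivity
  linarith

/-- the good primes -/
theorem pool_g (hSM : S_SM) (hEXC : S_EXC) (hC : S_CHEB) {a μ : ℕ} (h : Par a μ) :
    ∃ (N : ℕ) (U G : Finset ℕ), 0 < N ∧ N ≤ 2 ^ ((64 * a + 3) * (16 * μ)) ∧
      (∀ v ∈ U, v ∣ N ∧ v ≤ 2 ^ ((64 * a + 3) * (8 * μ))) ∧
      (∀ g ∈ G, g.Prime ∧ 2 ^ μ < g ∧ g ≤ 2 ^ (μ + 3)) ∧ 2 ^ μ ≤ 2 * μ * G.card ∧
      ∀ g ∈ G, ∀ c : ℕ, ¬ g ∣ c → ∃ v ∈ U, v ≡ c [MOD g] := by
  classical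
  have hμ := h.mu_pos
  have ha := h.ha
  have h3 := h.h3
  obtain ⟨s, hs⟩ : ∃ s, s = 8 * μ := ⟨_, rfl⟩
  obtain ⟨Q, hQ⟩ : ∃ Q, Q = Qs (16 * (4 * a)) := ⟨_, rfl⟩
  have hQm : ∀ p ∈ Q, (2 ^ (16 * (4 * a)) < p ∧ p ≤ 2 ^ (16 * (4 * a) + 3)) ∧ p.Prime :=
    fun p hp => by rw [hQ] at hp; exact mem_Qs.1 hp
  have hQ0 : ∀ p ∈ Q, 0 < p := fun p hp => (hQm p hp).2.pos
  have hQne : Q.Nonempty := by rw [hQ]; exact Qs_nonempty hC (by omega)
  set X : ℝ := 2 ^ μ with hX
  have hX300 : 300 ≤ X := by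
    calc (300 : ℝ) ≤ 2 ^ 9 := by norm_num
      _ ≤ 2 ^ μ := pow_le_pow_right₀ (by norm_num) (by omega)
  have hX0 : 0 < X := by linarith
  have hη0 : (0 : ℝ) ≤ (1 / 2) ^ (4 * a) := by positivity
  have hη1 : ((1 : ℝ) / 2) ^ (4 * a) ≤ 1 := pow_le_one₀ (by norm_num) (by norm_num)
  have hηX : (((1 : ℝ) / 2) ^ (4 * a)) ^ μ ≤ 1 / X ^ 8 := by
    rw [hX, ← pow_mul, one_div_pow, ← pow_mul]
    apply one_div_le_one_div_of_le (by positivity)
    apply pow_le_pow_right₀ (by norm_num)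
    nlinarith
  have hw : (4 : ℝ) ^ μ * (5 / 8) ^ s ≤ 1 / X ^ 3 := by rw [hs, hX]; exact num1 μ
  set G0 := (Qs μ).filter (fun g => NE Q ((1 / 2) ^ (4 * a)) g) with hG0
  have hG0m : ∀ g ∈ G0, (g.Prime ∧ 2 ^ μ < g ∧ g ≤ 2 ^ (μ + 3)) ∧ NE Q ((1 / 2) ^ (4 * a)) g := by
    intro g hg
    rw [hG0, Finset.mem_filter, mem_Qs] at hg
    exact ⟨⟨hg.1.2, hg.1.1.1, hg.1.1.2⟩, hg.2⟩
  have hcop : ∀ g, g.Prime → 2 ^ μ < g → ∀ p ∈ Q, Nat.Coprime p g := by
    intro g hg hg2 p hp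
    obtain ⟨⟨_, b2⟩, b3⟩ := hQm p hp
    rw [Nat.coprime_primes b3 hg]
    have : 2 ^ (16 * (4 * a) + 3) ≤ 2 ^ μ := Nat.pow_le_pow_right (by norm_num) (by omega)
    omega
  -- the exceptional primes
  have hexc : ((Qs μ).filter (fun g => ¬ NE Q ((1 / 2) ^ (4 * a)) g)).card * 2 ^ (μ / 2) ≤
      2 ^ (μ + 3 + 4 * (4 * a) + 8) := by
    apply hEXC (4 * a) (μ + 3) μ _ (by omega) (by omega) (hC _ (by omega))
    · have h2 := h.h2
      have b2 : 512 * a ≤ 2 ^ a * 2 ^ a := by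
        have h0 : ∀ n : ℕ, 20 ≤ n → 512 * n ≤ 2 ^ n := by
          intro n hn
          induction n, hn using Nat.le_induction with
          | base => norm_num
          | succ n hn ih => rw [pow_succ]; omega
        have := h0 a ha
        have h1 : 1 ≤ 2 ^ a := Nat.one_le_two_pow
        nlinarith
      calc 128 * (4 * a) * (2 * (μ + 3) + 4) = 512 * a * (2 * (μ + 3) + 4) := by ring
        _ ≤ 2 ^ a * 2 ^ a * 2 ^ a := by
            apply Nat.mul_le_mul b2
            omega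
        _ = 2 ^ (3 * a) := by rw [← pow_add, ← pow_add]; congr 1; ring
        _ ≤ 2 ^ (2 * (4 * a)) := Nat.pow_le_pow_right (by norm_num) (by omega)
    · intro g hg
      rw [Finset.mem_filter, mem_Qs] at hg
      obtain ⟨⟨⟨b1, b2⟩, b3⟩, b4⟩ := hg
      refine ⟨b3.pos, b2, ?_, ?_, ?_⟩
      · intro p hp hpg
        rw [(Nat.prime_dvd_prime_iff_eq hp b3).1 hpg]
        exact b1
      · rw [← hQ]; exact hcop g b3 b1
      · rw [← hQ]; exact b4
  have hG0card : (Qs μ).card = G0.card +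
      ((Qs μ).filter (fun g => ¬ NE Q ((1 / 2) ^ (4 * a)) g)).card :=
    (Finset.card_filter_add_card_filter_not _).symm
  set E := ((Qs μ).filter (fun g => ¬ NE Q ((1 / 2) ^ (4 * a)) g)).card with hE
  have hE2 : 4 * μ * E ≤ 2 ^ μ := by
    -- 4 μ 2^(16 a + 11) ≤ 2^(μ/2)
    have h2 := h.h2
    have b1 : 4 * μ * 2 ^ (16 * a + 12) ≤ 2 ^ (μ / 2) := by
      calc 4 * μ * 2 ^ (16 * a + 12) ≤ 2 ^ a * 2 ^ (16 * a + 12) := by
            apply Nat.mul_le_mul_right; omega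
        _ = 2 ^ (a + (16 * a + 12)) := by rw [← pow_add]
        _ ≤ 2 ^ (μ / 2) := Nat.pow_le_pow_right (by norm_num) (by omega)
    have b2 : 4 * μ * (E * 2 ^ (μ / 2)) ≤ 2 ^ μ * 2 ^ (μ / 2) := by
      calc 4 * μ * (E * 2 ^ (μ / 2)) ≤ 4 * μ * 2 ^ (μ + 3 + 4 * (4 * a) + 8) :=
            Nat.mul_le_mul_left _ hexc
        _ = 2 ^ μ * (4 * μ * 2 ^ (16 * a + 11)) := by
            rw [show μ + 3 + 4 * (4 * a) + 8 = μ + (16 * a + 11) by ring, pow_add]; ring
        _ ≤ 2 ^ μ * 2 ^ (μ / 2) := by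
            apply Nat.mul_le_mul_left
            refine le_trans ?_ b1
            apply Nat.mul_le_mul_left
            exact Nat.pow_le_pow_right (by norm_num) (by omega)
    have b3 : 4 * μ * E * 2 ^ (μ / 2) ≤ 2 ^ μ * 2 ^ (μ / 2) := by
      rw [mul_assoc]; exact b2
    exact Nat.le_of_mul_le_mul_right b3 (by positivity)
  have hcheb := hC μ (by omega)
  have hG0big : 3 * 2 ^ μ ≤ 4 * (μ * G0.card) := by
    rw [hG0card, mul_add] at hcheb
    have : 4 * μ * E = 4 * (μ * E) := by ring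
    omega
  have hG0pos : 0 < G0.card := by
    rcases Nat.eq_zero_or_pos G0.card with h0 | h0
    · rw [h0] at hG0big
      have : 0 < 2 ^ μ := by positivity
      omega
    · exact h0
  -- probability that a class is missed
  have hmiss : ∀ g ∈ G0, ∀ e ∈ Ico 1 g, av (fun ω : Om Q s => if Z {(g, e)} ω = 0 then (1 : ℝ) else 0)
      ≤ 9 / X ^ 2 := by
    intro g hg e he
    obtain ⟨⟨b1, b2, b3⟩, b4⟩ := hG0m g hg
    rw [Finset.mem_Ico] at he
    have hgp := b1.pos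
    have hφ0 : 0 < Nat.totient g := Nat.totient_pos.2 hgp
    set φ : ℝ := (Nat.totient g : ℝ) with hφ
    have hφ0' : 0 < φ := by rw [hφ]; exact_mod_cast hφ0
    have hφX : φ ≤ 8 * X := by
      have : Nat.totient g ≤ 2 ^ (μ + 3) := (Nat.totient_le g).trans b3
      have h4 : (Nat.totient g : ℝ) ≤ 2 ^ (μ + 3) := by exact_mod_cast this
      rw [pow_add] at h4
      rw [hφ, hX]
      linarith
    have h1 := hSM Q s μ ((1 / 2) ^ (4 * a)) 1 {(g, e)} hQne hη0 hη1 (by omega) le_rfl (by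
      intro k hk
      rw [Finset.mem_singleton] at hk
      subst hk
      refine ⟨hgp, b4, hcop g b1 b2, ?_⟩
      rw [Nat.coprime_comm, Nat.Prime.coprime_iff_not_dvd b1]
      intro hd
      have := Nat.le_of_dvd (by omega) hd
      omega) (fun ω σ => W_single_le g e _)
    rw [Gam_single, Finset.card_singleton, ← hφ] at h1
    have h2s : (0 : ℝ) < 2 ^ s := by positivity
    have h2 : ∀ ω : Om Q s, (if Z {(g, e)} ω = 0 then (1 : ℝ) else 0) ≤
        φ ^ 2 / 4 ^ s * (Z {(g, e)} ω - 2 ^ s * (1 / φ)) ^ 2 := by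
      intro ω
      split_ifs with hz
      · rw [hz]
        have h6 : ((4 : ℝ)) ^ s = (2 ^ s) ^ 2 := by
          rw [← pow_mul, mul_comm s 2, pow_mul]; norm_num
        rw [h6]
        have : φ ^ 2 / (2 ^ s) ^ 2 * (0 - 2 ^ s * (1 / φ)) ^ 2 = 1 := by
          field_simp
          ring
        rw [this]
      · positivity
    have h4 := av_mono h2
    rw [av_mul_left] at h4
    refine h4.trans ?_
    have h5 : φ ^ 2 / 4 ^ s * av (fun ω : Om Q s => (Z {(g, e)} ω - 2 ^ s * (1 / φ)) ^ 2) ≤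
        φ ^ 2 / 4 ^ s * (3 * 4 ^ s * ((1 : ℕ) : ℝ) ^ 2 * ((1 / 2) ^ (4 * a)) ^ μ +
          4 ^ μ * (5 / 2) ^ s * 1 * (1 / φ + ((1 : ℕ) : ℝ) * ((1 / 2) ^ (4 * a)) ^ μ)) :=
      mul_le_mul_of_nonneg_left h1 (by positivity)
    refine h5.trans ?_
    have h6 := num_g hX300 hφ0' hφX (by positivity) hηX (by positivity) hw
    refine le_trans (le_of_eq ?_) h6
    have e1 : ((5 : ℝ) / 2) ^ s = 4 ^ s * (5 / 8) ^ s := by rw [← mul_pow]; norm_num
    rw [e1]
    push_cast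
    field_simp
  -- average number of missed classes
  set f : Om Q s → ℝ := fun ω => ∑ g ∈ G0, ∑ e ∈ Ico 1 g, if Z {(g, e)} ω = 0 then (1 : ℝ) else 0
    with hf
  have hav : av f < G0.card / 4 := by
    rw [hf, av_sum]
    calc ∑ g ∈ G0, av (fun ω : Om Q s => ∑ e ∈ Ico 1 g, if Z {(g, e)} ω = 0 then (1 : ℝ) else 0)
        ≤ ∑ _g ∈ G0, (8 * X) * (9 / X ^ 2) := by
          refine Finset.sum_le_sum fun g hg => ?_
          rw [av_sum]
          obtain ⟨⟨b1, b2, b3⟩, b4⟩ := hG0m g hg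
          calc ∑ e ∈ Ico 1 g, av (fun ω : Om Q s => if Z {(g, e)} ω = 0 then (1 : ℝ) else 0)
              ≤ ∑ _e ∈ Ico 1 g, 9 / X ^ 2 := Finset.sum_le_sum fun e he => hmiss g hg e he
            _ = (g - 1 : ℕ) * (9 / X ^ 2) := by
                rw [Finset.sum_const, Nat.card_Ico, nsmul_eq_mul]
            _ ≤ (8 * X) * (9 / X ^ 2) := by
                apply mul_le_mul_of_nonneg_right _ (by positivity)
                have : g - 1 ≤ 2 ^ (μ + 3) := by omega
                have h4 : ((g - 1 : ℕ) : ℝ) ≤ 2 ^ (μ + 3) := by exact_mod_cast this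
                rw [pow_add] at h4
                rw [hX]
                linarith
      _ = G0.card * (72 / X) := by
          rw [Finset.sum_const, nsmul_eq_mul]
          field_simp
          ring
      _ < G0.card / 4 := by
          have h1 : (0 : ℝ) < G0.card := by exact_mod_cast hG0pos
          rw [div_eq_mul_inv (G0.card : ℝ) 4]
          apply mul_lt_mul_of_pos_left _ h1
          rw [div_lt_iff₀ hX0]
          linarith
  obtain ⟨ω, hω⟩ := exists_lt_of_av hQne f hav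
  -- the good primes
  obtain ⟨P, hP⟩ : ∃ P : ℕ → Prop, ∀ g, P g ↔ ∀ e ∈ Ico 1 g, Z {(g, e)} ω ≠ 0 :=
    ⟨_, fun g => Iff.rfl⟩
  set G := G0.filter P with hG
  have hGcard : (G0.card : ℝ) - G0.card / 4 ≤ G.card := by
    have h1 : (G0.card : ℝ) = G.card + (G0.filter (fun g => ¬ P g)).card := by
      rw [hG]
      exact_mod_cast (Finset.card_filter_add_card_filter_not _).symm
    have h2 : ((G0.filter (fun g => ¬ P g)).card : ℝ) ≤ f ω := by
      rw [hf]
      simp only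
      rw [← Finset.sum_boole]
      refine Finset.sum_le_sum fun g _ => ?_
      by_cases hg : P g
      · rw [if_neg (not_not.2 hg)]
        exact Finset.sum_nonneg fun i _ => by split_ifs <;> norm_num
      · rw [if_pos hg]
        rw [hP] at hg
        push Not at hg
        obtain ⟨e, he, hz⟩ := hg
        calc (1 : ℝ) = (if Z {(g, e)} ω = 0 then (1 : ℝ) else 0) := (if_pos hz).symm
          _ ≤ _ := Finset.single_le_sum (f := fun e => if Z {(g, e)} ω = 0 then (1 : ℝ) else 0)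
            (fun i _ => by split_ifs <;> norm_num) he
    linarith
  refine ⟨NN ω, univ.image (fun σ : Fin s → Bool => u ω σ), G, NN_pos hQ0 ω, ?_, ?_, ?_, ?_, ?_⟩
  · have := NN_le (fun p hp => (hQm p hp).1.2) ω
    rw [← pow_mul] at this
    refine this.trans (le_of_eq ?_)
    congr 1
    rw [hs]
    ring
  · intro v hv
    rw [Finset.mem_image] at hv
    obtain ⟨σ, _, rfl⟩ := hv
    refine ⟨u_dvd ω σ, ?_⟩
    have := u_le (fun p hp => (hQm p hp).1.2) ω σ
    rw [← pow_mul] at this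
    refine this.trans (le_of_eq ?_)
    congr 1
    rw [hs]
    ring
  · intro g hg
    rw [hG, Finset.mem_filter] at hg
    exact (hG0m g hg.1).1
  · have h1 : (3 : ℝ) * G0.card ≤ 4 * G.card := by linarith
    have h2 : 3 * G0.card ≤ 4 * G.card := by exact_mod_cast h1
    have h4 : μ * (3 * G0.card) ≤ μ * (4 * G.card) := Nat.mul_le_mul_left _ h2
    have h5 : 2 * μ * G.card = 2 * (μ * G.card) := by ring
    have h6 : μ * (3 * G0.card) = 3 * (μ * G0.card) := by ring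
    have h7 : μ * (4 * G.card) = 4 * (μ * G.card) := by ring
    omega
  · intro g hg c hc
    rw [hG, Finset.mem_filter, hP] at hg
    obtain ⟨⟨b1, b2, b3⟩, b4⟩ := hG0m g hg.1
    have hgp := b1.pos
    have hcg : c % g < g := Nat.mod_lt _ hgp
    have hc0 : 0 < c % g := Nat.pos_of_ne_zero fun h0 => hc (Nat.dvd_of_mod_eq_zero h0)
    have hz := hg.2 (g - c % g) (by rw [Finset.mem_Ico]; omega)
    have : ∃ σ : Fin s → Bool, g ∣ u ω σ + (g - c % g) := by
      by_contra hno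
      push Not at hno
      apply hz
      unfold Z
      apply Finset.sum_eq_zero
      intro σ _
      have : W {(g, g - c % g)} (u ω σ) = 0 := by
        unfold W
        rw [Finset.card_eq_zero, Finset.filter_eq_empty_iff]
        intro k hk
        rw [Finset.mem_singleton] at hk
        subst hk
        exact hno σ
      rw [this]
      simp
    obtain ⟨σ, hσ⟩ := this
    refine ⟨u ω σ, Finset.mem_image_of_mem _ (mem_univ σ), ?_⟩
    have h1 : u ω σ + (g - c % g) ≡ 0 [MOD g] := Nat.modEq_zero_iff_dvd.2 hσ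
    have h2 : c + (g - c % g) ≡ 0 [MOD g] := by
      rw [Nat.modEq_zero_iff_dvd]
      have h3 := Nat.div_add_mod c g
      refine ⟨c / g + 1, ?_⟩
      rw [mul_add, mul_one]
      omega
    exact Nat.ModEq.add_right_cancel' _ (h1.trans h2.symm)

end Pool.Agent.H51.EG
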