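import Pool.Agent.H51.EG.PoolB
import Pool.Agent.H51.EG.PoolG

open Finset

namespace Pool.Agent.H51.EG

theorem aux1 {a μ : ℕ} (h3 : 2048 * (64 * a + 4) ≤ μ) : (2 * a + 3) * 320 + 1 ≤ μ := by omega

theorem aux2 {a x : ℕ} (h : x = 800000 * (64 * a + 3)) :
    2 * a + (2 * (a + 1) + 2 * x) ≤ 4 * a + 2 + 1600000 * (64 * a + 3) := by omega

theorem aux3 {a k : ℕ} (ha : 100 ≤ a) (hk : 200000000 * a ≤ k) :
    4 * a + 2 + 1600000 * (64 * a + 3) + 2 ≤ k := by omega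

theorem aux4 {a x y f : ℕ} (ha : 100 ≤ a) (h1 : y ≤ f + (4 * a + 2 + 1600000 * (64 * a + 3)) + 1)
    (h2 : x ≤ y) : x ≤ f + 200000000 * a := by omega

/-- the construction: `1 = 1/n + (K unit fractions)` with `n` having at least `2^μ` divisors -/
theorem construct (hSM : S_SM) (hPHI : S_PHI) (hRD : S_RD) (hEXC : S_EXC) (hREP : S_REP)
    (hC : S_CHEB) (hST : S_START) (hBE : S_BETA) {a μ : ℕ} (h : Par a μ)
    (hμ1 : 2000000 * (64 * a + 3) * μ ≤ 2 ^ a)
    (hμ2 : 2 ^ a ≤ 2000000 * (64 * a + 3) * (μ + 1))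
    (hr2 : 800000 * (64 * a + 3) ≤ 2 ^ a) :
    ∃ n : ℕ, 1 < n ∧ 2 ^ μ ≤ n.divisors.card ∧
      R (4 * a + 2 + 1600000 * (64 * a + 3)) (1 - 1 / (n : ℚ)) := by
  classical
  have hμ := h.mu_pos
  have ha := h.ha
  have h3 := h.h3
  obtain ⟨N1, hN1, hN1le, hgood⟩ := pool_a hSM hPHI hRD hEXC hREP hC h
  obtain ⟨N2, U, G, hN2, hN2le, hU, hG1, hG2, hG3⟩ := pool_g hSM hEXC hC h
  set N := N1 * N2 with hN
  have hN0 : 0 < N := Nat.mul_pos hN1 hN2
  set d := 20000 * (64 * a + 3) * μ with hd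
  set r := 800000 * (64 * a + 3) with hr
  set β := 2 ^ (2 ^ a) - 1 with hβ
  have hβ1 : β + 1 = 2 ^ (2 ^ a) := by
    have : 1 ≤ 2 ^ (2 ^ a) := Nat.one_le_two_pow
    omega
  have hNd : N ≤ 2 ^ d := by
    calc N ≤ 2 ^ ((64 * a + 3) * (16384 * μ)) * 2 ^ ((64 * a + 3) * (16 * μ)) :=
          Nat.mul_le_mul hN1le hN2le
      _ = 2 ^ ((64 * a + 3) * (16384 * μ) + (64 * a + 3) * (16 * μ)) := by rw [← pow_add]
      _ ≤ 2 ^ d := by
          apply Nat.pow_le_pow_right (by norm_num)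
          rw [hd]
          nlinarith [Nat.zero_le ((64 * a + 3) * μ)]
  have hloss : (64 * μ * r) ^ (8 * r) * 2 ^ 100 ≤ 2 ^ d := by
    have h2 := h.h2
    have e1 : 64 * μ * r ≤ 2 ^ (2 * a + 3) := by
      calc 64 * μ * r = 8 * (8 * μ) * r := by ring
        _ ≤ 8 * 2 ^ a * 2 ^ a := by
            apply Nat.mul_le_mul _ hr2
            exact Nat.mul_le_mul_left _ h2
        _ = 2 ^ (2 * a + 3) := by
            rw [pow_add, mul_comm 2 a, pow_mul]; ring
    calc (64 * μ * r) ^ (8 * r) * 2 ^ 100 ≤ (2 ^ (2 * a + 3)) ^ (8 * r) * 2 ^ 100 := by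
          apply Nat.mul_le_mul_right
          exact Nat.pow_le_pow_left e1 _
      _ = 2 ^ ((2 * a + 3) * (8 * r) + 100) := by rw [← pow_mul, ← pow_add]
      _ ≤ 2 ^ d := by
          apply Nat.pow_le_pow_right (by norm_num)
          have e2 : (2 * a + 3) * 320 + 1 ≤ μ := aux1 h3
          have e3 : 20000 * (64 * a + 3) * ((2 * a + 3) * 320 + 1) ≤ d := by
            rw [hd]; exact Nat.mul_le_mul_left _ e2
          have e4 : (2 * a + 3) * (8 * r) + 100 ≤ 20000 * (64 * a + 3) * ((2 * a + 3) * 320 + 1) := by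
            rw [hr]
            nlinarith [Nat.zero_le a]
          exact e4.trans e3
  have hμ100 : 100 ≤ μ := by omega
  have h100 : 100 * d ≤ 2 ^ a := by
    have : 100 * d = 2000000 * (64 * a + 3) * μ := by rw [hd]; ring
    rw [this]; exact hμ1
  have h101 : 2 ^ a ≤ 101 * d := by
    refine hμ2.trans ?_
    rw [hd]
    have : 2000000 * (64 * a + 3) ≤ 20000 * (64 * a + 3) * μ := by nlinarith
    nlinarith
  obtain ⟨gs, hgs, hlen, t, ht1, ht2⟩ := hST N β μ d r G hN0 hNd hμ (by rw [hr]; omega) hG1 hG2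
    (by rw [hr, hd]; ring)
    (by rw [hβ1]; exact Nat.pow_le_pow_right (by norm_num) h100)
    (by
      refine le_trans (Nat.sub_le _ _) ?_
      exact Nat.pow_le_pow_right (by norm_num) h101) hloss
  set P := gs.prod with hP
  set n := N * P * t with hn
  have hβpos : 0 < β := by
    have e1 : 1 ≤ 2 ^ a := Nat.one_le_two_pow
    have : 2 ^ 1 ≤ 2 ^ (2 ^ a) := Nat.pow_le_pow_right (by norm_num) e1
    omega
  have hn1 : 1 < n := by omega
  have hP0 : 0 < P := by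
    rcases Nat.eq_zero_or_pos P with h0 | h0
    · rw [hn, h0] at hn1; simp at hn1
    · exact h0
  have ht0 : 0 < t := by
    rcases Nat.eq_zero_or_pos t with h0 | h0
    · rw [hn, h0] at hn1; simp at hn1
    · exact h0
  obtain ⟨Y, hY⟩ : ∃ Y, Y = 2 ^ (a * (1024 * μ) - 2) := ⟨_, rfl⟩
  have hY1 : 1 ≤ Y := by rw [hY]; exact Nat.one_le_two_pow
  have hUY : ∀ v ∈ U, v ∣ N ∧ v ≤ Y := by
    intro v hv
    obtain ⟨b1, b2⟩ := hU v hv
    refine ⟨b1.trans (Dvd.intro_left _ rfl), b2.trans ?_⟩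
    rw [hY]
    apply Nat.pow_le_pow_right (by norm_num)
    have : (64 * a + 3) * (8 * μ) = 512 * (a * μ) + 24 * μ := by ring
    have e2 : a * (1024 * μ) = 1024 * (a * μ) := by ring
    have e3 : 20 * μ ≤ a * μ := Nat.mul_le_mul_right _ ha
    omega
  have hw := w1 (2 * (a + 1)) N Y U hN0 hUY
    (fun A hA1 hA2 => (hgood A hA1 (by rw [← hY]; exact hA2)).dvd (Dvd.intro _ rfl)) gs
    (fun g hg => ⟨(hG1 g (hgs g hg)).1, hG3 g (hgs g hg)⟩) (β * N * t)
    (Nat.mul_pos (Nat.mul_pos hβpos hN0) ht0)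
    (Dvd.dvd.mul_right (Dvd.intro_left _ rfl) _) (n - β) (by omega) (by
      have : n - β ≤ P := by omega
      exact this.trans (Nat.le_mul_of_pos_left _ hY1))
  rw [hlen] at hw
  refine ⟨n, hn1, ?_, ?_⟩
  · -- divisors
    have hGne : G.Nonempty := by
      rw [← Finset.card_pos]
      rcases Nat.eq_zero_or_pos G.card with h0 | h0
      · rw [h0] at hG2
        have : 0 < 2 ^ μ := by positivity
        omega
      · exact h0
    obtain ⟨g, hg⟩ := hGne
    obtain ⟨b1, b2, b3⟩ := hG1 g hg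
    have hsub : U ⊆ n.divisors := by
      intro v hv
      rw [Nat.mem_divisors]
      refine ⟨?_, by omega⟩
      rw [hn]
      exact ((hUY v hv).1.trans (Dvd.intro _ rfl)).trans (Dvd.intro _ rfl)
    have himg : Ico 1 g ⊆ U.image (fun v => v % g) := by
      intro c hc
      rw [Finset.mem_Ico] at hc
      rw [Finset.mem_image]
      obtain ⟨v, hv, hvc⟩ := hG3 g hg c (fun hd => by
        have := Nat.le_of_dvd (by omega) hd
        omega)
      refine ⟨v, hv, ?_⟩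
      have : v % g = c % g := hvc
      rw [this, Nat.mod_eq_of_lt hc.2]
    calc 2 ^ μ ≤ g - 1 := by omega
      _ = (Ico 1 g).card := (Nat.card_Ico 1 g).symm
      _ ≤ (U.image (fun v => v % g)).card := Finset.card_le_card himg
      _ ≤ U.card := Finset.card_image_le
      _ ≤ n.divisors.card := Finset.card_le_card hsub
  · have hb := hBE a
    rw [← hβ] at hb
    have e1 : (1 : ℚ) - 1 / (n : ℚ) =
        (1 - 1 / (β : ℚ)) + ((n - β : ℕ) : ℚ) / ((β * N * t * P : ℕ) : ℚ) := by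
      have hle : β ≤ n := by omega
      rw [Nat.cast_sub hle]
      have hn' : ((β * N * t * P : ℕ) : ℚ) = β * n := by
        rw [hn]; push_cast; ring
      rw [hn']
      have hβ0 : (β : ℚ) ≠ 0 := by exact_mod_cast hβpos.ne'
      have hn0 : (n : ℚ) ≠ 0 := by exact_mod_cast (by omega : n ≠ 0)
      field_simp
      ring
    rw [e1]
    exact R_mono (R_add hb hw) (aux2 hr)

theorem pow_half {b : ℕ} (hb : 50 ≤ b) : 2000000 * (64 * (2 * b + 1) + 3) ≤ 2 ^ b ∧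
    (2 * b + 1) ^ 3 ≤ 2 ^ b ∧ 2048 * (64 * (2 * b + 1) + 4) ≤ 2 ^ b ∧ 16 * b ≤ 2 ^ b := by
  induction b, hb using Nat.le_induction with
  | base => norm_num
  | succ b hb ih =>
    obtain ⟨h1, h2, h3, h4⟩ := ih
    rw [pow_succ]
    refine ⟨by omega, ?_, by omega, by omega⟩
    have : (2 * (b + 1) + 1) ^ 3 ≤ (2 * b + 1) ^ 3 * 2 := by
      have e1 : 101 ≤ 2 * b + 1 := by omega
      generalize hx : 2 * b + 1 = x at e1
      have e2 : 2 * (b + 1) + 1 = x + 2 := by omega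
      rw [e2]
      nlinarith [mul_le_mul e1 e1 (by norm_num) (by omega : 0 ≤ x), Nat.zero_le (x * x)]
    exact this.trans (Nat.mul_le_mul_right _ h2)

theorem lower (hSM : S_SM) (hPHI : S_PHI) (hRD : S_RD) (hEXC : S_EXC) (hREP : S_REP)
    (hC : S_CHEB) (hST : S_START) (hBE : S_BETA) (hCNT : S_CNT) {a : ℕ} (ha : 100 ≤ a) (k : ℕ)
    (hk : 200000000 * a ≤ k) : 2 ^ (2 ^ (a / 2)) ≤ F k + 200000000 * a := by
  obtain ⟨b, hb⟩ : ∃ b, b = a / 2 := ⟨_, rfl⟩
  have hb50 : 50 ≤ b := by omega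
  obtain ⟨e1, e2, e3, _⟩ := pow_half hb50
  have hab : a ≤ 2 * b + 1 := by omega
  have h2b : 2 ^ b * 2 ^ b ≤ 2 ^ a := by
    rw [← pow_add]
    exact Nat.pow_le_pow_right (by norm_num) (by omega)
  set L := 2000000 * (64 * a + 3) with hL
  have hL0 : 0 < L := by omega
  have hLb : L ≤ 2 ^ b := by
    refine le_trans ?_ e1
    omega
  set μ := 2 ^ a / L with hμ
  have hμ1 : L * μ ≤ 2 ^ a := Nat.mul_div_le _ _
  have hμ2 : 2 ^ a < L * (μ + 1) := Nat.lt_mul_div_succ _ hL0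
  have hμb : 2 ^ b ≤ μ := by
    rw [hμ, Nat.le_div_iff_mul_le hL0]
    exact (Nat.mul_le_mul_left _ hLb).trans h2b
  have hP : Par a μ := by
    refine ⟨by omega, ?_, ?_, ?_⟩
    · refine le_trans ?_ hμb
      exact (Nat.pow_le_pow_left hab 3).trans e2
    · refine le_trans ?_ hμ1
      exact Nat.mul_le_mul_right _ (by omega)
    · refine le_trans ?_ hμb
      omega
  obtain ⟨n, hn1, hn2, hn3⟩ := construct hSM hPHI hRD hEXC hREP hC hST hBE hP hμ1 hμ2.le (by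
    have : 800000 * (64 * a + 3) ≤ L := by omega
    refine this.trans (hLb.trans ?_)
    exact Nat.pow_le_pow_right (by norm_num) (by omega))
  have h1 := hCNT _ n hn1 hn3 k (aux3 ha hk)
  have h2 : 2 ^ (2 ^ b) ≤ 2 ^ μ := Nat.pow_le_pow_right (by norm_num) hμb
  rw [← hb]
  exact aux4 ha h1 (h2.trans hn2)

/-- exponential form -/
theorem lower_exp (h : ∀ a : ℕ, 100 ≤ a → ∀ k : ℕ, 200000000 * a ≤ k →
    2 ^ (2 ^ (a / 2)) ≤ F k + 200000000 * a) :
    ∀ k : ℕ, 100000000000 ≤ k → Real.exp (Real.exp ((k : ℝ) / 10 ^ 10)) ≤ (F k : ℝ) := by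
  intro k hk
  set a := k / 200000000 with ha
  have ha1 : 200000000 * a ≤ k := Nat.mul_div_le _ _
  have ha2 : k < 200000000 * (a + 1) := Nat.lt_mul_div_succ _ (by norm_num)
  have ha3 : 100 ≤ a := by omega
  have h1 := h a ha3 k ha1
  obtain ⟨b, hb⟩ : ∃ b, b = a / 2 := ⟨_, rfl⟩
  rw [← hb] at h1
  have hb50 : 50 ≤ b := by omega
  have hab : a ≤ 2 * b + 1 := by omega
  obtain ⟨c, hc⟩ : ∃ c, b = c + 1 := ⟨b - 1, by omega⟩
  rw [hc] at h1
  have hc49 : 49 ≤ c := by omega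
  have h2 : (2 : ℕ) ^ (2 ^ (c + 1)) = 2 ^ (2 ^ c) * 2 ^ (2 ^ c) := by
    rw [← pow_add]; congr 1; rw [pow_succ]; ring
  have h3 : 200000000 * a ≤ 2 ^ (2 ^ c) := by
    have e1 : a ≤ 2 * (c + 1) + 1 := by omega
    have e2 : ∀ c : ℕ, 49 ≤ c → 200000000 * (2 * (c + 1) + 1) ≤ 2 ^ c := by
      intro c hc
      induction c, hc using Nat.le_induction with
      | base => norm_num
      | succ c hc ih => rw [pow_succ]; omega
    have e3 := e2 c hc49
    have e4 : c ≤ 2 ^ c := Nat.lt_two_pow_self.le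
    have e5 : 2 ^ c ≤ 2 ^ (2 ^ c) := Nat.pow_le_pow_right (by norm_num) e4
    omega
  have h4 : 2 ^ (2 ^ c) ≤ F k := by
    rw [h2] at h1
    have h5 : 2 ≤ 2 ^ (2 ^ c) := by
      calc 2 = 2 ^ 1 := by norm_num
        _ ≤ 2 ^ (2 ^ c) := Nat.pow_le_pow_right (by norm_num) Nat.one_le_two_pow
    nlinarith
  have h5 : ((2 : ℝ)) ^ (2 ^ c) ≤ F k := by exact_mod_cast h4
  refine le_trans ?_ h5
  have hlog : (1 : ℝ) / 2 ≤ Real.log 2 := by
    have := Real.log_two_gt_d9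
    linarith
  have h6 : ((2 : ℝ)) ^ (2 ^ c) = Real.exp (Real.log 2 * 2 ^ c) := by
    rw [Real.exp_mul, Real.exp_log (by norm_num)]
    norm_cast
  rw [h6]
  apply Real.exp_le_exp.2
  have h7 : Real.exp ((k : ℝ) / 10 ^ 10) ≤ 2 ^ c * (1 / 2) := by
    have e1 : (2 : ℝ) ^ c * (1 / 2) = 2 ^ (c - 1) := by
      obtain ⟨e, he⟩ : ∃ e, c = e + 1 := ⟨c - 1, by omega⟩
      rw [he, pow_succ]
      simp
    rw [e1]
    have e2 : (2 : ℝ) ^ (c - 1) = Real.exp (Real.log 2 * ((c - 1 : ℕ) : ℝ)) := by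
      rw [Real.exp_mul, Real.exp_log (by norm_num), Real.rpow_natCast]
    rw [e2]
    apply Real.exp_le_exp.2
    have e3 : ((c - 1 : ℕ) : ℝ) = (c : ℝ) - 1 := by
      rw [Nat.cast_sub (by omega)]; simp
    have e4 : (k : ℝ) ≤ 200000000 * (2 * (c + 1) + 1 + 1) := by
      have : k ≤ 200000000 * (2 * (c + 1) + 1 + 1) := by omega
      exact_mod_cast this
    have e5 : (49 : ℝ) ≤ c := by exact_mod_cast hc49
    calc (k : ℝ) / 10 ^ 10 ≤ 200000000 * (2 * (c + 1) + 1 + 1) / 10 ^ 10 := by gcongr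
      _ ≤ 1 / 2 * ((c - 1 : ℕ) : ℝ) := by
          rw [e3]
          linarith
      _ ≤ Real.log 2 * ((c - 1 : ℕ) : ℝ) :=
          mul_le_mul_of_nonneg_right hlog (Nat.cast_nonneg _)
  calc Real.exp ((k : ℝ) / 10 ^ 10) ≤ 2 ^ c * (1 / 2) := h7
    _ ≤ 2 ^ c * Real.log 2 := mul_le_mul_of_nonneg_left hlog (by positivity)
    _ = Real.log 2 * 2 ^ c := by ring

end Pool.Agent.H51.EG
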