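import Pool.Agent.H51.EG.Prob

open Finset

namespace Pool.Agent.H51.EG

open Classical in
/-- the levels: `{1}`, primes in `(2^(im-3), 2^(im)]`, and rough numbers at the top, `m = 1024 μ` -/
noncomputable def Lv (a μ i : ℕ) : Finset ℕ :=
  if i = 0 then {1} else if i < a then Qs (i * (1024 * μ) - 3)
  else (Ioc (2 ^ (a * (1024 * μ) - 3)) (2 ^ (a * (1024 * μ)))).filter (Rough (2 ^ (8 * μ)))

theorem mem_Qs {l p : ℕ} : p ∈ Qs l ↔ (2 ^ l < p ∧ p ≤ 2 ^ (l + 3)) ∧ p.Prime := by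
  unfold Qs
  rw [Finset.mem_filter, Finset.mem_Ioc]

/-- the size conditions on the parameters -/
structure Par (a μ : ℕ) : Prop where
  ha : 20 ≤ a
  h1 : a ^ 3 ≤ μ
  h2 : 8 * μ ≤ 2 ^ a
  h3 : 2048 * (64 * a + 4) ≤ μ

theorem Par.mu_pos {a μ : ℕ} (h : Par a μ) : 0 < μ := by
  have := h.h3; omega

theorem Par.am {a μ : ℕ} (h : Par a μ) : a * (1024 * μ) ≤ 2 ^ (2 * a) := by
  have h1 : 128 * a ≤ 2 ^ a := by
    have h0 : ∀ n : ℕ, 20 ≤ n → 128 * n ≤ 2 ^ n := by
      intro n hn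
      induction n, hn using Nat.le_induction with
      | base => norm_num
      | succ n hn ih => rw [pow_succ]; omega
    exact h0 a h.ha
  have h2 := h.h2
  calc a * (1024 * μ) = (128 * a) * (8 * μ) := by ring
    _ ≤ 2 ^ a * 2 ^ a := Nat.mul_le_mul h1 h2
    _ = 2 ^ (2 * a) := by rw [← pow_add]; congr 1; ring

theorem lv_zero (a μ : ℕ) : Lv a μ 0 = {1} := by simp [Lv]

theorem lv_bounds {a μ i A : ℕ} (h : Par a μ) (hi : i < a) (hA : A ∈ Lv a μ (i + 1)) :
    2 ^ ((i + 1) * (1024 * μ) - 3) < A ∧ A ≤ 2 ^ ((i + 1) * (1024 * μ)) ∧ Rough (2 ^ (8 * μ)) A := by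
  classical
  have hμ := h.mu_pos
  have h4 : 1024 * μ ≤ (i + 1) * (1024 * μ) := Nat.le_mul_of_pos_left _ (Nat.succ_pos i)
  unfold Lv at hA
  rw [if_neg (Nat.succ_ne_zero i)] at hA
  split_ifs at hA with h1
  · rw [mem_Qs] at hA
    have h3 : (i + 1) * (1024 * μ) - 3 + 3 = (i + 1) * (1024 * μ) := by omega
    rw [h3] at hA
    refine ⟨hA.1.1, hA.1.2, ?_⟩
    intro p hp hpA
    have : p = A := (Nat.prime_dvd_prime_iff_eq hp hA.2).1 hpA
    rw [this]
    refine lt_of_le_of_lt ?_ hA.1.1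
    exact Nat.pow_le_pow_right (by norm_num) (by omega)
  · have h5 : i + 1 = a := by omega
    rw [Finset.mem_filter, Finset.mem_Ioc] at hA
    rw [h5]
    exact ⟨hA.1.1, hA.1.2, hA.2⟩

theorem lv_low {a μ i e : ℕ} (h : Par a μ) (hi : i < a) (he : e ∈ Lv a μ i) :
    1 ≤ e ∧ e ≤ 2 ^ (i * (1024 * μ)) := by
  rcases i with _ | i
  · rw [lv_zero, Finset.mem_singleton] at he
    subst he
    simp
  · obtain ⟨h1, h2, _⟩ := lv_bounds h (by omega : i < a) he
    exact ⟨(Nat.zero_le _).trans_lt h1, h2⟩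

theorem lv_card {a μ i : ℕ} (h : Par a μ) (hi : i ≤ a) :
    (Lv a μ i).card ≤ 2 ^ (i * (1024 * μ)) := by
  have : Lv a μ i ⊆ Icc 1 (2 ^ (i * (1024 * μ))) := by
    intro e he
    rw [Finset.mem_Icc]
    rcases i with _ | i
    · rw [lv_zero, Finset.mem_singleton] at he
      subst he
      simp
    · obtain ⟨h1, h2, _⟩ := lv_bounds h (by omega : i < a) he
      exact ⟨(Nat.zero_le _).trans_lt h1, h2⟩
  calc (Lv a μ i).card ≤ (Icc 1 (2 ^ (i * (1024 * μ)))).card := Finset.card_le_card this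
    _ = 2 ^ (i * (1024 * μ)) := by simp

theorem lv_lt {a μ i A e : ℕ} (h : Par a μ) (hi : i < a) (hA : A ∈ Lv a μ (i + 1))
    (he : e ∈ Lv a μ i) : e < A := by
  have hμ := h.mu_pos
  obtain ⟨h1, _, _⟩ := lv_bounds h hi hA
  obtain ⟨_, h2⟩ := lv_low h hi he
  refine lt_of_le_of_lt (h2.trans ?_) h1
  apply Nat.pow_le_pow_right (by norm_num)
  have : (i + 1) * (1024 * μ) = i * (1024 * μ) + 1024 * μ := by ring
  omega

theorem lv_cop {a μ i A : ℕ} (h : Par a μ) (hi : i < a) (hA : A ∈ Lv a μ (i + 1)) {p : ℕ}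
    (hp : p ∈ Qs (16 * (4 * a))) : Nat.Coprime p A := by
  obtain ⟨_, _, h3⟩ := lv_bounds h hi hA
  rw [mem_Qs] at hp
  rw [Nat.Prime.coprime_iff_not_dvd hp.2]
  intro hd
  have h4 := h3 p hp.2 hd
  have h5 : 2 ^ (16 * (4 * a) + 3) ≤ 2 ^ (8 * μ) := by
    apply Nat.pow_le_pow_right (by norm_num)
    have := h.h3
    omega
  omega

theorem card_primeFactors_le {A y : ℕ} (hA : 0 < A) (hy : A ≤ 2 ^ y) : A.primeFactors.card ≤ y := by
  have h1 : 2 ^ A.primeFactors.card ≤ A := by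
    calc 2 ^ A.primeFactors.card ≤ ∏ p ∈ A.primeFactors, p :=
          Finset.pow_card_le_prod _ _ _ fun p hp => (Nat.prime_of_mem_primeFactors hp).two_le
      _ ≤ A := Nat.le_of_dvd hA (Nat.prod_primeFactors_dvd A)
  exact (Nat.pow_le_pow_iff_right (by norm_num)).1 (h1.trans hy)

theorem Gam_KA (T' : Finset ℕ) (A : ℕ) :
    Gam (KA T' A) = ((T'.filter (fun e => Nat.Coprime e A)).card : ℝ) * (1 / (Nat.totient A : ℝ)) := by
  classical
  unfold Gam KA
  rw [Finset.sum_image (by intro x _ y _ h; simpa using h)]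
  simp only [Finset.sum_const, nsmul_eq_mul]

theorem lv_gam (hC : S_CHEB) {a μ i A : ℕ} (h : Par a μ) (hi : i < a) (hA : A ∈ Lv a μ (i + 1)) :
    1 / (2 : ℝ) ^ (1024 * μ + 2 * a + 4) ≤ Gam (KA (Lv a μ i) A) := by
  classical
  have hμ := h.mu_pos
  obtain ⟨h1, h2, h3⟩ := lv_bounds h hi hA
  have hA0 : 0 < A := (Nat.zero_le _).trans_lt h1
  have hφ0 : 0 < Nat.totient A := Nat.totient_pos.2 hA0
  have hφ : (Nat.totient A : ℝ) ≤ 2 ^ ((i + 1) * (1024 * μ)) := by
    exact_mod_cast (Nat.totient_le A).trans h2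
  rw [Gam_KA]
  -- number of coprime elements
  have key : 2 ^ (i * (1024 * μ)) ≤ ((Lv a μ i).filter (fun e => Nat.Coprime e A)).card * 2 ^ (2 * a + 4) := by
    rcases i with _ | i
    · rw [lv_zero]
      have : (({1} : Finset ℕ).filter (fun e => Nat.Coprime e A)) = {1} := by
        rw [Finset.filter_singleton, if_pos (Nat.coprime_one_left A)]
      rw [this]
      simp
      exact Nat.one_le_two_pow
    · have hia : i + 1 < a := hi
      have h4 : 1024 * μ ≤ (i + 1) * (1024 * μ) := Nat.le_mul_of_pos_left _ (Nat.succ_pos i)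
      have h5 : (i + 1) * (1024 * μ) ≤ 2 ^ (2 * a) := by
        refine le_trans ?_ h.am
        exact Nat.mul_le_mul_right _ hia.le
      have h5' : (i + 1 + 1) * (1024 * μ) ≤ 2 ^ (2 * a) := by
        refine le_trans ?_ h.am
        exact Nat.mul_le_mul_right _ hi
      have hlv : Lv a μ (i + 1) = Qs ((i + 1) * (1024 * μ) - 3) := by
        unfold Lv
        rw [if_neg (Nat.succ_ne_zero i), if_pos hia]
      have h6 := hC ((i + 1) * (1024 * μ) - 3) (by omega)
      rw [← hlv] at h6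
      have h7 : (Lv a μ (i + 1)).card ≤
          ((Lv a μ (i + 1)).filter (fun e => Nat.Coprime e A)).card + (i + 1 + 1) * (1024 * μ) := by
        have h8 := Finset.card_filter_add_card_filter_not (s := Lv a μ (i + 1))
          (fun e => Nat.Coprime e A)
        have h9 : ((Lv a μ (i + 1)).filter (fun e => ¬ Nat.Coprime e A)) ⊆ A.primeFactors := by
          intro e he
          rw [Finset.mem_filter, hlv, mem_Qs] at he
          rw [Nat.mem_primeFactors]
          refine ⟨he.1.2, ?_, hA0.ne'⟩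
          by_contra hnd
          exact he.2 ((Nat.Prime.coprime_iff_not_dvd he.1.2).2 hnd)
        have h10 := (Finset.card_le_card h9).trans (card_primeFactors_le hA0 h2)
        omega
      set n := ((Lv a μ (i + 1)).filter (fun e => Nat.Coprime e A)).card with hn
      -- 2^(y-3) ≤ 2^(2a) (n + 2^(2a))
      have h11 : 2 ^ ((i + 1) * (1024 * μ) - 3) ≤ 2 ^ (2 * a) * (n + 2 ^ (2 * a)) := by
        calc 2 ^ ((i + 1) * (1024 * μ) - 3) ≤ ((i + 1) * (1024 * μ) - 3) * (Lv a μ (i + 1)).card := h6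
          _ ≤ 2 ^ (2 * a) * (n + 2 ^ (2 * a)) := by
              apply Nat.mul_le_mul
              · omega
              · omega
      have h12 : 2 ^ (2 * a) * 2 ^ (2 * a) ≤ 2 ^ ((i + 1) * (1024 * μ) - 4) := by
        rw [← pow_add]
        apply Nat.pow_le_pow_right (by norm_num)
        have := h.h3
        omega
      have h13 : 2 ^ ((i + 1) * (1024 * μ) - 3) = 2 * 2 ^ ((i + 1) * (1024 * μ) - 4) := by
        rw [← pow_succ']
        congr 1
        omega
      have h14 : 2 ^ ((i + 1) * (1024 * μ)) = 16 * 2 ^ ((i + 1) * (1024 * μ) - 4) := by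
        rw [show (16 : ℕ) = 2 ^ 4 by norm_num, ← pow_add]
        congr 1
        omega
      have h15 : 2 ^ (2 * a + 4) = 16 * 2 ^ (2 * a) := by rw [pow_add]; ring
      rw [h14, h15]
      nlinarith
  rw [mul_one_div, div_le_div_iff₀ (by positivity) (by exact_mod_cast hφ0), one_mul]
  have key' : (2 : ℝ) ^ (i * (1024 * μ)) ≤
      (((Lv a μ i).filter (fun e => Nat.Coprime e A)).card : ℝ) * 2 ^ (2 * a + 4) := by
    exact_mod_cast key
  calc (Nat.totient A : ℝ) ≤ 2 ^ ((i + 1) * (1024 * μ)) := hφ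
    _ = 2 ^ (i * (1024 * μ)) * 2 ^ (1024 * μ) := by rw [← pow_add]; congr 1; ring
    _ ≤ (((Lv a μ i).filter (fun e => Nat.Coprime e A)).card : ℝ) * 2 ^ (2 * a + 4) * 2 ^ (1024 * μ) :=
        mul_le_mul_of_nonneg_right key' (by positivity)
    _ = (((Lv a μ i).filter (fun e => Nat.Coprime e A)).card : ℝ) * 2 ^ (1024 * μ + 2 * a + 4) := by
        rw [mul_assoc, ← pow_add]; congr 2; ring

theorem lv_gam16 (hP : S_PHI) {a μ i e : ℕ} (h : Par a μ) (hi : i < a) (T : Finset ℕ)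
    (hT : T ⊆ Lv a μ (i + 1)) : Gam (Ke T e) ≤ 16 := by
  classical
  have hμ := h.mu_pos
  have h0 : Gam (Ke T e) ≤ ∑ A ∈ T, 1 / (Nat.totient A : ℝ) := by
    unfold Gam Ke
    rw [Finset.sum_image (by intro x _ y _ h; simpa using h)]
    exact Finset.sum_le_sum_of_subset_of_nonneg (Finset.filter_subset _ _)
      (fun A _ _ => by positivity)
  refine h0.trans ?_
  have h4 : 1024 * μ ≤ (i + 1) * (1024 * μ) := Nat.le_mul_of_pos_left _ (Nat.succ_pos i)
  have h1 : ∀ A ∈ T, 1 / (Nat.totient A : ℝ) ≤ 16 / 2 ^ ((i + 1) * (1024 * μ)) := by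
    intro A hA
    obtain ⟨a1, a2, a3⟩ := lv_bounds h hi (hT hA)
    have hA0 : 0 < A := (Nat.zero_le _).trans_lt a1
    have h5 := hP (8 * μ) ((i + 1) * (1024 * μ)) A (by omega) hA0 a2 a3 (by
      have b1 : (i + 1) * (1024 * μ) ≤ 2 ^ (2 * a) :=
        le_trans (Nat.mul_le_mul_right _ hi) h.am
      have b2 : 2 * 2 ^ (2 * a) ≤ 2 ^ (8 * μ) := by
        rw [← pow_succ']
        apply Nat.pow_le_pow_right (by norm_num)
        have := h.h3
        omega
      omega)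
    have hφ0 : (0 : ℝ) < Nat.totient A := by exact_mod_cast Nat.totient_pos.2 hA0
    rw [div_le_div_iff₀ hφ0 (by positivity), one_mul]
    have h6 : (2 : ℝ) ^ ((i + 1) * (1024 * μ)) = 8 * 2 ^ ((i + 1) * (1024 * μ) - 3) := by
      rw [show (8 : ℝ) = 2 ^ 3 by norm_num, ← pow_add]
      congr 1
      omega
    have h7 : (2 : ℝ) ^ ((i + 1) * (1024 * μ) - 3) ≤ A := by exact_mod_cast a1.le
    rw [h6]
    linarith
  calc ∑ A ∈ T, 1 / (Nat.totient A : ℝ) ≤ ∑ _A ∈ T, (16 / 2 ^ ((i + 1) * (1024 * μ)) : ℝ) :=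
        Finset.sum_le_sum h1
    _ = T.card * (16 / 2 ^ ((i + 1) * (1024 * μ))) := by simp
    _ ≤ 2 ^ ((i + 1) * (1024 * μ)) * (16 / 2 ^ ((i + 1) * (1024 * μ))) := by
        apply mul_le_mul_of_nonneg_right _ (by positivity)
        have := (Finset.card_le_card hT).trans (lv_card h (by omega : i + 1 ≤ a))
        exact_mod_cast this
    _ = 16 := by field_simp

theorem lv_W (hR : S_RD) {a μ i e s : ℕ} (h : Par a μ) (hs : s = 8192 * μ) (hi : i < a)
    (T : Finset ℕ) (hT : T ⊆ Lv a μ (i + 1)) (he : e ∈ Lv a μ i)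
    (ω : Om (Qs (16 * (4 * a))) s) (σ : Fin s → Bool) :
    (W (Ke T e) (u ω σ) : ℝ) ≤ 2 ^ (1024 * (64 * a + 4)) := by
  classical
  have hμ := h.mu_pos
  have hQ0 : ∀ p ∈ Qs (16 * (4 * a)), 0 < p := fun p hp => (mem_Qs.1 hp).2.pos
  have hu0 := u_pos hQ0 ω σ
  have hu1 := u_le (fun p hp => (mem_Qs.1 hp).1.2) ω σ
  obtain ⟨he1, he2⟩ := lv_low h hi he
  have h1 : u ω σ + e ≤ 2 ^ ((64 * a + 4) * s) := by
    have b1 : (2 ^ (16 * (4 * a) + 3)) ^ s = 2 ^ ((64 * a + 3) * s) := by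
      rw [← pow_mul]; congr 1; ring
    have b2 : 2 ^ (i * (1024 * μ)) ≤ 2 ^ ((64 * a + 3) * s) := by
      apply Nat.pow_le_pow_right (by norm_num)
      rw [hs]
      nlinarith
    have b3 : 2 * 2 ^ ((64 * a + 3) * s) ≤ 2 ^ ((64 * a + 4) * s) := by
      rw [← pow_succ']
      apply Nat.pow_le_pow_right (by norm_num)
      rw [hs]
      nlinarith
    rw [b1] at hu1
    omega
  have h2 : W (Ke T e) (u ω σ) ≤ (T.filter (fun A => A ∣ u ω σ + e)).card := by
    have h3 : (W (Ke T e) (u ω σ) : ℝ) ≤ ((T.filter (fun A => A ∣ u ω σ + e)).card : ℝ) := by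
      rw [W_Ke, ← Finset.sum_boole]
      refine Finset.sum_le_sum fun A _ => ?_
      by_cases c1 : A ∣ u ω σ + e
      · rw [if_pos c1]; split_ifs <;> norm_num
      · rw [if_neg (fun hh => c1 hh.2), if_neg c1]
    exact_mod_cast h3
  have h3 := hR (8 * μ) ((64 * a + 4) * s) (u ω σ + e) (by omega) (by omega) h1
    (T.filter (fun A => A ∣ u ω σ + e)) (by
      intro A hA
      rw [Finset.mem_filter] at hA
      exact ⟨(lv_bounds h hi (hT hA.1)).2.2, hA.2⟩)
  have h4 : (64 * a + 4) * s / (8 * μ) = 1024 * (64 * a + 4) := by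
    rw [hs, show (64 * a + 4) * (8192 * μ) = (1024 * (64 * a + 4)) * (8 * μ) by ring]
    exact Nat.mul_div_cancel _ (by omega)
  rw [h4] at h3
  exact_mod_cast h2.trans h3

end Pool.Agent.H51.EG
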