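import Pool.Agent.H51.EG.Lev

open Finset

namespace Pool.Agent.H51.EG

theorem prod_ge (P : Finset ℕ) (x : ℕ → ℝ) (hx : ∀ p ∈ P, 0 ≤ x p ∧ x p ≤ 1) :
    1 - ∑ p ∈ P, x p ≤ ∏ p ∈ P, (1 - x p) := by
  classical
  induction P using Finset.induction_on with
  | empty => simp
  | insert a P ha ih =>
    rw [Finset.sum_insert ha, Finset.prod_insert ha]
    have h1 := ih fun p hp => hx p (Finset.mem_insert_of_mem hp)
    obtain ⟨h2, h3⟩ := hx a (Finset.mem_insert_self a P)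
    have h4 : 0 ≤ ∑ p ∈ P, x p :=
      Finset.sum_nonneg fun p hp => (hx p (Finset.mem_insert_of_mem hp)).1
    nlinarith [mul_le_mul_of_nonneg_left h1 (by linarith : 0 ≤ 1 - x a), mul_nonneg h2 h4]

theorem phi : S_PHI := by
  intro z0 y A hz hA hy hR h2y
  have h0 : (Nat.totient A : ℝ) = A * ∏ p ∈ A.primeFactors, (1 - 1 / (p : ℝ)) := by
    have h := Nat.totient_eq_mul_prod_factors A
    have h' : ((Nat.totient A : ℚ) : ℝ) = ((A * ∏ p ∈ A.primeFactors, (1 - (p : ℚ)⁻¹) : ℚ) : ℝ) := by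
      rw [h]
    push_cast at h'
    rw [h']
    simp only [one_div]
  have h1 : 1 - ∑ p ∈ A.primeFactors, 1 / (p : ℝ) ≤ ∏ p ∈ A.primeFactors, (1 - 1 / (p : ℝ)) := by
    apply prod_ge
    intro p hp
    have hp1 : 1 ≤ p := (Nat.prime_of_mem_primeFactors hp).one_le
    have : (1 : ℝ) ≤ p := by exact_mod_cast hp1
    exact ⟨by positivity, by rw [div_le_one (by linarith)]; exact this⟩
  have hz0 : (0 : ℝ) < 2 ^ z0 := by positivity
  have h2 : ∑ p ∈ A.primeFactors, 1 / (p : ℝ) ≤ 1 / 2 := by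
    calc ∑ p ∈ A.primeFactors, 1 / (p : ℝ) ≤ ∑ _p ∈ A.primeFactors, 1 / (2 : ℝ) ^ z0 := by
          refine Finset.sum_le_sum fun p hp => ?_
          have := hR p (Nat.prime_of_mem_primeFactors hp) (Nat.dvd_of_mem_primeFactors hp)
          apply one_div_le_one_div_of_le hz0
          exact_mod_cast this.le
      _ = A.primeFactors.card * (1 / (2 : ℝ) ^ z0) := by simp
      _ ≤ y * (1 / (2 : ℝ) ^ z0) := by
          apply mul_le_mul_of_nonneg_right _ (by positivity)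
          exact_mod_cast card_primeFactors_le hA hy
      _ ≤ 1 / 2 := by
          rw [mul_one_div, div_le_div_iff₀ hz0 (by norm_num)]
          have : (2 : ℝ) * y ≤ 2 ^ z0 := by exact_mod_cast h2y
          linarith
  rw [h0]
  have hA0 : (0 : ℝ) ≤ A := Nat.cast_nonneg _
  have h3 : (1 : ℝ) / 2 ≤ ∏ p ∈ A.primeFactors, (1 - 1 / (p : ℝ)) := by linarith
  calc (A : ℝ) / 2 = A * (1 / 2) := by ring
    _ ≤ _ := mul_le_mul_of_nonneg_left h3 hA0

end Pool.Agent.H51.EG
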