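import Pool.Agent.H51.EG.Lev

open Finset

namespace Pool.Agent.H51.EG

open Classical in
/-- the nonexceptional moduli of level `i + 1` -/
noncomputable def Tn (a μ i : ℕ) : Finset ℕ :=
  (Lv a μ (i + 1)).filter (fun A => NE (Qs (16 * (4 * a))) ((1 / 2) ^ (4 * a)) A)

theorem Tn_sub (a μ i : ℕ) : Tn a μ i ⊆ Lv a μ (i + 1) := by
  classical
  exact Finset.filter_subset _ _

theorem num1 (m : ℕ) : (4 : ℝ) ^ m * (5 / 8) ^ (8 * m) ≤ 1 / (2 ^ m) ^ 3 := by
  rw [pow_mul, ← mul_pow, ← pow_mul, mul_comm m 3, pow_mul, one_div, ← inv_pow]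
  apply pow_le_pow_left₀ (by positivity)
  norm_num

theorem Qs_nonempty (hC : S_CHEB) {l : ℕ} (hl : 10 ≤ l) : (Qs l).Nonempty := by
  have h := hC l hl
  rw [← Finset.card_pos]
  rcases Nat.eq_zero_or_pos (Qs l).card with h0 | h0
  · rw [h0] at h
    have : 0 < 2 ^ l := by positivity
    omega
  · exact h0

theorem num_few {X C w t1 t2 c a : ℝ} (hX : 1 ≤ X) (hC : 16 ≤ C) (ha : 0 < a)
    (hCX : C ^ 2 ≤ X) (hbig : 32 * a * C ≤ X) (hw0 : 0 ≤ w) (hw : w ≤ 1 / X ^ 3)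
    (ht1 : t1 ≤ 1 / X ^ 8) (ht2 : t2 ≤ 1 / X ^ 8) (hc : c = 1 / (X * C)) :
    (12 * t1 / c ^ 2 + 4 * w * (1 / c + t2 / c ^ 2)) * X ≤ 1 / (4 * a) := by
  have hX0 : 0 < X := by linarith
  have hC0 : 0 < C := by linarith
  have e1 : 12 * t1 / c ^ 2 ≤ 12 * (X ^ 2 * C ^ 2) / X ^ 8 := by
    rw [hc]
    have : 12 * t1 / (1 / (X * C)) ^ 2 = 12 * t1 * (X ^ 2 * C ^ 2) := by field_simp
    rw [this, mul_div_assoc, ]
    have h2 := mul_le_mul_of_nonneg_right ht1 (by positivity : (0 : ℝ) ≤ X ^ 2 * C ^ 2)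
    calc 12 * t1 * (X ^ 2 * C ^ 2) = 12 * (t1 * (X ^ 2 * C ^ 2)) := by ring
      _ ≤ 12 * (1 / X ^ 8 * (X ^ 2 * C ^ 2)) := by linarith
      _ = 12 * (X ^ 2 * C ^ 2 / X ^ 8) := by ring
  have e2 : 1 / c + t2 / c ^ 2 ≤ X * C + X ^ 2 * C ^ 2 / X ^ 8 := by
    rw [hc]
    have h1 : 1 / (1 / (X * C)) = X * C := by field_simp
    have h3 : t2 / (1 / (X * C)) ^ 2 = t2 * (X ^ 2 * C ^ 2) := by field_simp
    rw [h1, h3]
    have h2 := mul_le_mul_of_nonneg_right ht2 (by positivity : (0 : ℝ) ≤ X ^ 2 * C ^ 2)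
    have : 1 / X ^ 8 * (X ^ 2 * C ^ 2) = X ^ 2 * C ^ 2 / X ^ 8 := by ring
    linarith
  have e3 : 4 * w * (1 / c + t2 / c ^ 2) ≤ 4 * (1 / X ^ 3) * (X * C + X ^ 2 * C ^ 2 / X ^ 8) := by
    calc 4 * w * (1 / c + t2 / c ^ 2) ≤ 4 * w * (X * C + X ^ 2 * C ^ 2 / X ^ 8) :=
          mul_le_mul_of_nonneg_left e2 (by positivity)
      _ ≤ 4 * (1 / X ^ 3) * (X * C + X ^ 2 * C ^ 2 / X ^ 8) := by
          apply mul_le_mul_of_nonneg_right _ (by positivity)
          linarith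
  have e4 : (12 * t1 / c ^ 2 + 4 * w * (1 / c + t2 / c ^ 2)) * X ≤
      (12 * (X ^ 2 * C ^ 2) / X ^ 8 + 4 * (1 / X ^ 3) * (X * C + X ^ 2 * C ^ 2 / X ^ 8)) * X := by
    apply mul_le_mul_of_nonneg_right _ hX0.le
    linarith
  refine e4.trans ?_
  have e5 : (12 * (X ^ 2 * C ^ 2) / X ^ 8 + 4 * (1 / X ^ 3) * (X * C + X ^ 2 * C ^ 2 / X ^ 8)) * X
      = (12 * C ^ 2 / X ^ 4 + 4 * C + 4 * C ^ 2 / X ^ 7) / X := by
    field_simp
    ring
  rw [e5, div_le_div_iff₀ hX0 (by positivity), one_mul]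
  have e6 : C ^ 2 / X ^ 4 ≤ 1 := by
    rw [div_le_one (by positivity)]
    calc C ^ 2 ≤ X := hCX
      _ = X ^ 1 := (pow_one X).symm
      _ ≤ X ^ 4 := pow_le_pow_right₀ hX (by norm_num)
  have e7 : C ^ 2 / X ^ 7 ≤ 1 := by
    rw [div_le_one (by positivity)]
    calc C ^ 2 ≤ X := hCX
      _ = X ^ 1 := (pow_one X).symm
      _ ≤ X ^ 7 := pow_le_pow_right₀ hX (by norm_num)
  have e8 : 12 * C ^ 2 / X ^ 4 + 4 * C + 4 * C ^ 2 / X ^ 7 ≤ 8 * C := by
    rw [mul_div_assoc, mul_div_assoc]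
    linarith
  calc (12 * C ^ 2 / X ^ 4 + 4 * C + 4 * C ^ 2 / X ^ 7) * (4 * a) ≤ 8 * C * (4 * a) :=
        mul_le_mul_of_nonneg_right e8 (by positivity)
    _ = 32 * a * C := by ring
    _ ≤ X := hbig

theorem num_exc {X D w t1 t2 F a : ℝ} (hX : 1 ≤ X) (hD : 1 ≤ D) (ha : 0 < a) (hF : 0 < F)
    (hbig : 8 * a * D ≤ X) (hw : w ≤ F / X ^ 3) (hw0 : 0 ≤ w)
    (ht1 : t1 ≤ 1 / X ^ 8) (ht2 : t2 ≤ 1) :
    (3 * F * t1 + w * D * (16 + t2)) * X ^ 2 ≤ (16 * F) * (1 / (4 * a)) := by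
  have hX0 : 0 < X := by linarith
  have e1 : 3 * F * t1 ≤ 3 * F * (1 / X ^ 3) := by
    apply mul_le_mul_of_nonneg_left _ (by positivity)
    refine ht1.trans ?_
    apply one_div_le_one_div_of_le (by positivity)
    exact pow_le_pow_right₀ hX (by norm_num)
  have e2 : w * D * (16 + t2) ≤ F / X ^ 3 * D * 17 := by
    calc w * D * (16 + t2) ≤ w * D * 17 := by
          apply mul_le_mul_of_nonneg_left (by linarith) (by positivity)
      _ ≤ F / X ^ 3 * D * 17 := by gcongr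
  have e3 : (3 * F * t1 + w * D * (16 + t2)) * X ^ 2 ≤
      (3 * F * (1 / X ^ 3) + F / X ^ 3 * D * 17) * X ^ 2 :=
    mul_le_mul_of_nonneg_right (by linarith) (by positivity)
  refine e3.trans ?_
  have e4 : (3 * F * (1 / X ^ 3) + F / X ^ 3 * D * 17) * X ^ 2 = F * (3 + 17 * D) / X := by
    field_simp
  have e5 : (16 * F) * (1 / (4 * a)) = F * 4 / a := by field_simp; ring
  rw [e4, e5, div_le_div_iff₀ hX0 ha]
  have : (3 + 17 * D) * a ≤ 4 * X := by nlinarith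
  nlinarith

theorem par_two_pow {a μ : ℕ} (h : Par a μ) : 4 * a + 40 ≤ μ := by
  have := h.h3; omega

theorem exists_pool (hSM : S_SM) (hPHI : S_PHI) (hRD : S_RD) (hC : S_CHEB) {a μ : ℕ}
    (h : Par a μ) : ∃ ω : Om (Qs (16 * (4 * a))) (8 * (1024 * μ)), ∀ i < a,
      few (Tn a μ i) (Lv a μ i) ω * 2 ^ (1024 * μ) ≤ 2 ^ ((i + 1) * (1024 * μ)) ∧
      exc (Tn a μ i) (Lv a μ i) ω * (2 ^ (1024 * μ)) ^ 2 ≤
        2 ^ (i * (1024 * μ)) * 2 ^ (8 * (1024 * μ)) := by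
  classical
  have hμ := h.mu_pos
  have ha := h.ha
  set m := 1024 * μ with hm
  set s := 8 * m with hs
  set Q := Qs (16 * (4 * a)) with hQ
  have hQne : Q.Nonempty := Qs_nonempty hC (by omega)
  have ha0 : (0 : ℝ) < a := by exact_mod_cast (by omega : 0 < a)
  set X : ℝ := 2 ^ m with hX
  have hX1 : 1 ≤ X := one_le_pow₀ (by norm_num)
  set κ : ℝ := 2 ^ (a * m) with hκ
  have hκX : X ^ 4 ≤ κ := by
    rw [hX, hκ, ← pow_mul]
    apply pow_le_pow_right₀ (by norm_num)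
    nlinarith
  have hκ0 : 0 < κ := by positivity
  have hη : (((1 : ℝ) / 2) ^ (4 * a)) ^ m = 1 / κ ^ 4 := by
    rw [hκ, ← pow_mul, ← pow_mul, one_div_pow]
    congr 2
    ring
  have ht1 : κ ^ 2 * (((1 : ℝ) / 2) ^ (4 * a)) ^ m ≤ 1 / X ^ 8 := by
    rw [hη]
    have : κ ^ 2 * (1 / κ ^ 4) = 1 / κ ^ 2 := by field_simp
    rw [this]
    apply one_div_le_one_div_of_le (by positivity)
    calc X ^ 8 = (X ^ 4) ^ 2 := by ring
      _ ≤ κ ^ 2 := pow_le_pow_left₀ (by positivity) hκX 2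
  have hκ1 : 1 ≤ κ := one_le_pow₀ (by norm_num)
  have ht2 : κ * (((1 : ℝ) / 2) ^ (4 * a)) ^ m ≤ 1 / X ^ 8 := by
    refine le_trans ?_ ht1
    apply mul_le_mul_of_nonneg_right _ (by positivity)
    nlinarith
  have ht2' : κ * (((1 : ℝ) / 2) ^ (4 * a)) ^ m ≤ 1 := by
    refine ht2.trans ?_
    rw [div_le_one (by positivity)]
    exact one_le_pow₀ hX1
  set C : ℝ := 2 ^ (2 * a + 4) with hCdef
  have h4a := par_two_pow h
  have ha2 : (a : ℝ) ≤ 2 ^ a := by exact_mod_cast Nat.lt_two_pow_self.le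
  have hC16 : 16 ≤ C := by
    rw [hCdef, show (16 : ℝ) = 2 ^ 4 by norm_num]
    exact pow_le_pow_right₀ (by norm_num) (by omega)
  have hCX : C ^ 2 ≤ X := by
    rw [hCdef, hX, ← pow_mul]
    exact pow_le_pow_right₀ (by norm_num) (by omega)
  have hbig : 32 * (a : ℝ) * C ≤ X := by
    calc 32 * (a : ℝ) * C ≤ 2 ^ 5 * 2 ^ a * 2 ^ (2 * a + 4) := by
          rw [hCdef]
          have : (32 : ℝ) = 2 ^ 5 := by norm_num
          rw [this]
          gcongr
      _ = 2 ^ (5 + a + (2 * a + 4)) := by rw [← pow_add, ← pow_add]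
      _ ≤ X := by
          rw [hX]
          exact pow_le_pow_right₀ (by norm_num) (by omega)
  obtain ⟨E, hE⟩ : ∃ E : ℕ, E = 1024 * (64 * a + 4) := ⟨_, rfl⟩
  set D : ℝ := 2 ^ E with hD
  have hD1 : 1 ≤ D := one_le_pow₀ (by norm_num)
  have hbigD : 8 * (a : ℝ) * D ≤ X := by
    calc 8 * (a : ℝ) * D ≤ 2 ^ 3 * 2 ^ a * 2 ^ E := by
          rw [hD]
          have : (8 : ℝ) = 2 ^ 3 := by norm_num
          rw [this]
          gcongr
      _ = 2 ^ (3 + a + E) := by rw [← pow_add, ← pow_add]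
      _ ≤ X := by
          rw [hX]
          apply pow_le_pow_right₀ (by norm_num)
          have := h.h3
          omega
  set c : ℝ := 1 / 2 ^ (m + 2 * a + 4) with hc
  have hc0 : 0 < c := by positivity
  have hcX : c = 1 / (X * C) := by
    rw [hc, hX, hCdef, ← pow_add, add_assoc]
  have hw : (4 : ℝ) ^ m * (5 / 8) ^ s ≤ 1 / X ^ 3 := by
    rw [hs, hX]; exact num1 m
  have hη0 : (0 : ℝ) ≤ (1 / 2) ^ (4 * a) := by positivity
  have hη1 : ((1 : ℝ) / 2) ^ (4 * a) ≤ 1 := pow_le_one₀ (by norm_num) (by norm_num)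
  -- averages
  have hfew : ∀ i < a, av (fun ω : Om Q s => few (Tn a μ i) (Lv a μ i) ω) * X ≤
      2 ^ ((i + 1) * m) * (1 / (4 * a)) := by
    intro i hi
    have h1 := av_few hSM (s := s) (d := m) (c := c) (κ := κ) hQne hη0 hη1 (by omega) (Tn a μ i)
      (Lv a μ i) hc0 (by
        intro A hA
        have hA' := Tn_sub a μ i hA
        unfold Tn at hA
        rw [Finset.mem_filter] at hA
        obtain ⟨b1, b2, b3⟩ := lv_bounds h hi hA'
        refine ⟨(Nat.zero_le _).trans_lt b1, hA.2, fun p hp => lv_cop h hi hA' hp,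
          fun e he => lv_lt h hi hA' he, ?_⟩
        have := lv_gam hC h hi hA'
        rw [hc]; exact this) (by
        have := lv_card h hi.le
        rw [hκ]
        have h2 : 2 ^ (i * m) ≤ 2 ^ (a * m) :=
          Nat.pow_le_pow_right (by norm_num) (Nat.mul_le_mul_right _ hi.le)
        exact_mod_cast this.trans h2)
    have h2 := num_few hX1 hC16 ha0 hCX hbig
      (w := 4 ^ m * (5 / 8) ^ s) (by positivity) hw ht1 ht2 hcX
    have h3 : ((Tn a μ i).card : ℝ) ≤ 2 ^ ((i + 1) * m) := by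
      have := (Finset.card_le_card (Tn_sub a μ i)).trans (lv_card h (by omega : i + 1 ≤ a))
      exact_mod_cast this
    calc av (fun ω : Om Q s => few (Tn a μ i) (Lv a μ i) ω) * X ≤ _ * X :=
          mul_le_mul_of_nonneg_right h1 (by positivity)
      _ = (Tn a μ i).card * ((12 * (κ ^ 2 * (((1 : ℝ) / 2) ^ (4 * a)) ^ m) / c ^ 2 +
          4 * (4 ^ m * (5 / 8) ^ s) * (1 / c + κ * (((1 : ℝ) / 2) ^ (4 * a)) ^ m / c ^ 2)) * X) := by
          ring
      _ ≤ (Tn a μ i).card * (1 / (4 * a)) := mul_le_mul_of_nonneg_left h2 (Nat.cast_nonneg _)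
      _ ≤ 2 ^ ((i + 1) * m) * (1 / (4 * a)) := mul_le_mul_of_nonneg_right h3 (by positivity)
  have hexc : ∀ i < a, av (fun ω : Om Q s => exc (Tn a μ i) (Lv a μ i) ω) * X ^ 2 ≤
      2 ^ (i * m) * 2 ^ s * (1 / (4 * a)) := by
    intro i hi
    have h1 := av_exc hSM (s := s) (d := m) (D := D) (κ := κ) hQne hη0 hη1 (by omega) hD1 (Tn a μ i)
      (Lv a μ i) (by
        intro A hA
        have hA' := Tn_sub a μ i hA
        unfold Tn at hA
        rw [Finset.mem_filter] at hA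
        obtain ⟨b1, b2, b3⟩ := lv_bounds h hi hA'
        exact ⟨(Nat.zero_le _).trans_lt b1, hA.2, fun p hp => lv_cop h hi hA' hp⟩)
      (fun e _ => lv_gam16 hPHI h hi _ (Tn_sub a μ i))
      (fun e he ω σ => by
        have := lv_W hRD h (by omega) hi _ (Tn_sub a μ i) he ω σ
        rw [← hE] at this
        exact this) (by
        have := (Finset.card_le_card (Tn_sub a μ i)).trans (lv_card h (by omega : i + 1 ≤ a))
        rw [hκ]
        have h2 : 2 ^ ((i + 1) * m) ≤ 2 ^ (a * m) :=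
          Nat.pow_le_pow_right (by norm_num) (Nat.mul_le_mul_right _ hi)
        exact_mod_cast this.trans h2)
    have hF : (0 : ℝ) < 4 ^ s := by positivity
    have hw' : (4 : ℝ) ^ m * (5 / 2) ^ s ≤ 4 ^ s / X ^ 3 := by
      have e1 : ((5 : ℝ) / 2) ^ s = 4 ^ s * (5 / 8) ^ s := by rw [← mul_pow]; norm_num
      rw [e1]
      calc (4 : ℝ) ^ m * (4 ^ s * (5 / 8) ^ s) = 4 ^ s * (4 ^ m * (5 / 8) ^ s) := by ring
        _ ≤ 4 ^ s * (1 / X ^ 3) := mul_le_mul_of_nonneg_left hw hF.le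
        _ = 4 ^ s / X ^ 3 := by ring
    have h2 := num_exc hX1 hD1 ha0 hF hbigD hw' (by positivity) ht1 ht2'
    have h3 : ((Lv a μ i).card : ℝ) ≤ 2 ^ (i * m) := by
      exact_mod_cast lv_card h hi.le
    have h2s : (0 : ℝ) < 2 ^ s := by positivity
    have h4s : (4 : ℝ) ^ s = 2 ^ s * 2 ^ s := by rw [← mul_pow]; norm_num
    calc av (fun ω : Om Q s => exc (Tn a μ i) (Lv a μ i) ω) * X ^ 2 ≤ _ * X ^ 2 :=
          mul_le_mul_of_nonneg_right h1 (by positivity)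
      _ = (Lv a μ i).card * (((3 * 4 ^ s * (κ ^ 2 * (((1 : ℝ) / 2) ^ (4 * a)) ^ m) +
          4 ^ m * (5 / 2) ^ s * D * (16 + κ * (((1 : ℝ) / 2) ^ (4 * a)) ^ m)) * X ^ 2) / (16 * 2 ^ s)) := by
          ring
      _ ≤ (Lv a μ i).card * ((16 * 4 ^ s * (1 / (4 * a))) / (16 * 2 ^ s)) := by
          apply mul_le_mul_of_nonneg_left _ (Nat.cast_nonneg _)
          exact div_le_div_of_nonneg_right h2 (by positivity)
      _ = (Lv a μ i).card * (2 ^ s * (1 / (4 * a))) := by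
          rw [h4s]; field_simp
      _ ≤ 2 ^ (i * m) * (2 ^ s * (1 / (4 * a))) := mul_le_mul_of_nonneg_right h3 (by positivity)
      _ = 2 ^ (i * m) * 2 ^ s * (1 / (4 * a)) := by ring
  -- choose ω
  set Φ : Om Q s → ℝ := fun ω => ∑ i ∈ range a,
    (X / 2 ^ ((i + 1) * m) * few (Tn a μ i) (Lv a μ i) ω +
      X ^ 2 / (2 ^ (i * m) * 2 ^ s) * exc (Tn a μ i) (Lv a μ i) ω) with hΦ
  have hav : av Φ < 1 := by
    rw [hΦ, av_sum]
    calc ∑ i ∈ range a, av (fun ω : Om Q s => X / 2 ^ ((i + 1) * m) * few (Tn a μ i) (Lv a μ i) ω +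
          X ^ 2 / (2 ^ (i * m) * 2 ^ s) * exc (Tn a μ i) (Lv a μ i) ω)
        ≤ ∑ _i ∈ range a, (1 / (4 * (a : ℝ)) + 1 / (4 * a)) := by
          refine Finset.sum_le_sum fun i hi => ?_
          rw [Finset.mem_range] at hi
          rw [av_add, av_mul_left, av_mul_left]
          apply add_le_add
          · rw [div_mul_eq_mul_div, div_le_iff₀ (by positivity)]
            have := hfew i hi
            linarith
          · rw [div_mul_eq_mul_div, div_le_iff₀ (by positivity)]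
            have := hexc i hi
            linarith
      _ = 1 / 2 := by
          rw [Finset.sum_const, Finset.card_range, nsmul_eq_mul]
          field_simp
          norm_num
      _ < 1 := by norm_num
  obtain ⟨ω, hω⟩ := exists_lt_of_av hQne Φ hav
  refine ⟨ω, fun i hi => ?_⟩
  have hfew0 : ∀ i, 0 ≤ few (Tn a μ i) (Lv a μ i) ω := fun i => by
    unfold few
    exact Finset.sum_nonneg fun A _ => by split_ifs <;> norm_num
  have hexc0 : ∀ i, 0 ≤ exc (Tn a μ i) (Lv a μ i) ω := fun i => by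
    unfold exc
    exact Finset.sum_nonneg fun A _ => le_max_left _ _
  have hterm : X / 2 ^ ((i + 1) * m) * few (Tn a μ i) (Lv a μ i) ω +
      X ^ 2 / (2 ^ (i * m) * 2 ^ s) * exc (Tn a μ i) (Lv a μ i) ω ≤ 1 := by
    refine le_trans ?_ hω.le
    rw [hΦ]
    exact Finset.single_le_sum (f := fun i => X / 2 ^ ((i + 1) * m) * few (Tn a μ i) (Lv a μ i) ω +
      X ^ 2 / (2 ^ (i * m) * 2 ^ s) * exc (Tn a μ i) (Lv a μ i) ω) (fun j _ => by
        have := hfew0 j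
        have := hexc0 j
        positivity) (Finset.mem_range.2 hi)
  constructor
  · have h1 : X / 2 ^ ((i + 1) * m) * few (Tn a μ i) (Lv a μ i) ω ≤ 1 := by
      have : 0 ≤ X ^ 2 / (2 ^ (i * m) * 2 ^ s) * exc (Tn a μ i) (Lv a μ i) ω := by
        have := hexc0 i
        positivity
      linarith
    rw [div_mul_eq_mul_div, div_le_one (by positivity)] at h1
    linarith
  · have h1 : X ^ 2 / (2 ^ (i * m) * 2 ^ s) * exc (Tn a μ i) (Lv a μ i) ω ≤ 1 := by
      have : 0 ≤ X / 2 ^ ((i + 1) * m) * few (Tn a μ i) (Lv a μ i) ω := by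
        have := hfew0 i
        positivity
      linarith
    rw [div_mul_eq_mul_div, div_le_one (by positivity)] at h1
    linarith

end Pool.Agent.H51.EG
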