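import Pool.Agent.H51.EG.PoolA

open Finset

namespace Pool.Agent.H51.EG

/-- density recursion -/
theorem bad_le (hEXC : S_EXC) (hC : S_CHEB) {a μ m s : ℕ} {Q : Finset ℕ} (h : Par a μ)
    (hm : m = 1024 * μ) (hQ : Q = Qs (16 * (4 * a)))
    (ω : Om Q s)
    (hω : ∀ i < a, few (Tn a μ i) (Lv a μ i) ω * 2 ^ m ≤ 2 ^ ((i + 1) * m) ∧
      exc (Tn a μ i) (Lv a μ i) ω * (2 ^ m) ^ 2 ≤ 2 ^ (i * m) * 2 ^ s) :
    ∀ i ≤ a, ((bad (i + 1) (NN ω) (Lv a μ i)).card : ℝ) * 2 ^ (4 * μ) ≤
      2 ^ (i * m) * (2 ^ (2 * a + 11)) ^ i * 2 ^ (16 * a + 10) := by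
  classical
  have hμ := h.mu_pos
  have ha := h.ha
  have hQ0 : ∀ p ∈ Q, 0 < p := fun p hp => by rw [hQ] at hp; exact (mem_Qs.1 hp).2.pos
  have hN0 : 0 < NN ω := NN_pos hQ0 ω
  intro i
  induction i with
  | zero =>
    intro _
    have : bad (0 + 1) (NN ω) (Lv a μ 0) = ∅ := by
      unfold bad
      rw [lv_zero, Finset.filter_eq_empty_iff]
      intro x hx
      rw [Finset.mem_singleton] at hx
      subst hx
      simpa using good_one hN0
    rw [this]
    simp
  | succ i ih =>
    intro hi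
    have hi' : i < a := hi
    have ih' := ih hi'.le
    obtain ⟨hf, he⟩ := hω i hi'
    set b : ℝ := ((bad (i + 1) (NN ω) (Lv a μ i)).card : ℝ) with hb
    set T := Tn a μ i with hT
    -- exceptional part
    have h1 : ((bad (i + 1 + 1) (NN ω) (Lv a μ (i + 1))).card : ℝ) ≤
        (((Lv a μ (i + 1)).filter (fun A => ¬ NE Q ((1 / 2) ^ (4 * a)) A)).card : ℝ) +
          (bad (i + 1 + 1) (NN ω) T).card := by
      have : bad (i + 1 + 1) (NN ω) (Lv a μ (i + 1)) ⊆
          ((Lv a μ (i + 1)).filter (fun A => ¬ NE Q ((1 / 2) ^ (4 * a)) A)) ∪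
            bad (i + 1 + 1) (NN ω) T := by
        intro A hA
        rw [bad, Finset.mem_filter] at hA
        rw [Finset.mem_union, Finset.mem_filter, bad, Finset.mem_filter, hT, Tn, Finset.mem_filter]
        by_cases hne : NE Q ((1 / 2) ^ (4 * a)) A
        · exact Or.inr ⟨⟨hA.1, by rw [← hQ]; exact hne⟩, hA.2⟩
        · exact Or.inl ⟨hA.1, hne⟩
      have := (Finset.card_le_card this).trans (Finset.card_union_le _ _)
      exact_mod_cast this
    have h2 : (((Lv a μ (i + 1)).filter (fun A => ¬ NE Q ((1 / 2) ^ (4 * a)) A)).card : ℝ) *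
        2 ^ (4 * μ) ≤ 2 ^ ((i + 1) * m) * 2 ^ (16 * a + 8) := by
      have e1 := hEXC (4 * a) ((i + 1) * m) (8 * μ)
        ((Lv a μ (i + 1)).filter (fun A => ¬ NE Q ((1 / 2) ^ (4 * a)) A)) (by omega) (by omega)
        (hC (16 * (4 * a)) (by omega)) (by
          have b1 : (i + 1) * m ≤ 2 ^ (2 * a) := by
            rw [hm]
            refine le_trans ?_ h.am
            exact Nat.mul_le_mul_right _ hi
          have b2 : 4096 * a ≤ 2 ^ (2 * a) := by
            have h0 : ∀ n : ℕ, 20 ≤ n → 4096 * n ≤ 2 ^ (2 * n) := by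
              intro n hn
              induction n, hn using Nat.le_induction with
              | base => norm_num
              | succ n hn ih => rw [show 2 * (n + 1) = 2 * n + 2 by ring, pow_add]; omega
            exact h0 a ha
          have b3 : 4 ≤ 2 ^ (2 * a) := by
            calc 4 = 2 ^ 2 := by norm_num
              _ ≤ 2 ^ (2 * a) := Nat.pow_le_pow_right (by norm_num) (by omega)
          calc 128 * (4 * a) * (2 * ((i + 1) * m) + 4) ≤ 128 * (4 * a) * (3 * 2 ^ (2 * a)) := by
                apply Nat.mul_le_mul_left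
                omega
            _ = 1536 * a * 2 ^ (2 * a) := by ring
            _ ≤ 2 ^ (2 * a) * 2 ^ (2 * a) * 2 ^ (4 * a) := by
                have : 1 ≤ 2 ^ (4 * a) := Nat.one_le_two_pow
                nlinarith
            _ = 2 ^ (2 * (4 * a)) := by rw [← pow_add, ← pow_add]; congr 1; ring)
        (by
          intro A hA
          rw [Finset.mem_filter] at hA
          obtain ⟨b1, b2, b3⟩ := lv_bounds h hi' hA.1
          rw [hm]
          exact ⟨(Nat.zero_le _).trans_lt b1, b2, b3, fun p hp => lv_cop h hi' hA.1 hp,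
            by rw [← hQ]; exact hA.2⟩)
      have e2 : 8 * μ / 2 = 4 * μ := by omega
      rw [e2] at e1
      have e3 : (i + 1) * m + 4 * (4 * a) + 8 = (i + 1) * m + (16 * a + 8) := by ring
      rw [e3, pow_add] at e1
      exact_mod_cast e1
    -- step
    have h3 := step_det hQ0 ω T (Lv a μ i) (i + 1) (1 / 2 ^ (m + 2 * a + 4)) (by positivity)
      (fun A hA => by rw [hm]; exact lv_gam hC h hi' (Tn_sub a μ i hA))
    set X : ℝ := 2 ^ m with hX
    set P : ℝ := 2 ^ (i * m) with hP
    set S : ℝ := 2 ^ s with hS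
    set f := few T (Lv a μ i) ω with hf'
    set x := exc T (Lv a μ i) ω with hx'
    have hX1 : 1 ≤ X := one_le_pow₀ (by norm_num)
    have hX0 : 0 < X := by linarith
    have hP0 : 0 < P := by positivity
    have hS0 : 0 < S := by positivity
    have hPi : (2 : ℝ) ^ ((i + 1) * m) = P * X := by
      rw [hP, hX, ← pow_add]; congr 1; ring
    rw [hPi] at h2 hf
    rw [hPi]
    set M : ℝ := 2 ^ (4 * μ) with hM
    have hM0 : 0 < M := by positivity
    have hMX : M ≤ X := by
      rw [hM, hX]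
      exact pow_le_pow_right₀ (by norm_num) (by omega)
    set C : ℝ := 2 ^ (2 * a + 4) with hCd
    have hC0 : 0 < C := by positivity
    have hCX : 2 * C * M ≤ X := by
      rw [hCd, hM, hX]
      calc (2 : ℝ) * 2 ^ (2 * a + 4) * 2 ^ (4 * μ) = 2 ^ (1 + (2 * a + 4) + 4 * μ) := by
            rw [← pow_succ', ← pow_add]; congr 1; ring
        _ ≤ 2 ^ m := by
            apply pow_le_pow_right₀ (by norm_num)
            have := par_two_pow h
            omega
    have e0 : 2 / (1 / 2 ^ (m + 2 * a + 4) * S) = 2 * X * C / S := by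
      rw [add_assoc, pow_add, ← hX, ← hCd]
      field_simp
    rw [e0] at h3
    have hf2 : f ≤ P := by
      have : f * X ≤ P * X := hf
      exact le_of_mul_le_mul_right this hX0
    have hx2 : x ≤ P * S / X ^ 2 := by
      rw [le_div_iff₀ (by positivity)]
      exact he
    set G : ℝ := 2 ^ (2 * a + 11) with hG
    have hGC : G = 128 * C := by
      rw [hG, hCd, show 2 * a + 11 = 7 + (2 * a + 4) by ring, pow_add]
      norm_num
    set E : ℝ := 2 ^ (16 * a + 8) with hE
    have hE4 : (2 : ℝ) ^ (16 * a + 10) = 4 * E := by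
      rw [hE, show 16 * a + 10 = 2 + (16 * a + 8) by ring, pow_add]
      norm_num
    rw [hE4] at ih' ⊢
    have hE1 : 1 ≤ E := one_le_pow₀ (by norm_num)
    have hG1 : 1 ≤ G := one_le_pow₀ (by norm_num)
    have hGi : 1 ≤ G ^ i := one_le_pow₀ hG1
    have hb0 : 0 ≤ b := Nat.cast_nonneg _
    -- third: M * (2 X C / S) * x ≤ P X
    have h4 : M * (2 * X * C / S * x) ≤ P * X := by
      calc M * (2 * X * C / S * x) ≤ M * (2 * X * C / S * (P * S / X ^ 2)) := by
            gcongr
        _ = P * (2 * C * M) / X := by field_simp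
        _ ≤ P * X / 1 := by
            gcongr
        _ = P * X := by ring
    have h5 : M * (2 * X * C / S * (32 * S * b)) = 64 * C * X * (b * M) := by
      field_simp
      ring
    calc ((bad (i + 1 + 1) (NN ω) (Lv a μ (i + 1))).card : ℝ) * M ≤
        ((((Lv a μ (i + 1)).filter (fun A => ¬ NE Q ((1 / 2) ^ (4 * a)) A)).card : ℝ) +
          (f + 2 * X * C / S * (32 * S * b + x))) * M := by
          apply mul_le_mul_of_nonneg_right _ hM0.le
          linarith
      _ = (((Lv a μ (i + 1)).filter (fun A => ¬ NE Q ((1 / 2) ^ (4 * a)) A)).card : ℝ) * M +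
          f * M + M * (2 * X * C / S * (32 * S * b)) + M * (2 * X * C / S * x) := by ring
      _ ≤ P * X * E + P * X + 64 * C * X * (P * G ^ i * (4 * E)) + P * X := by
          have e1 : f * M ≤ P * X := mul_le_mul hf2 hMX hM0.le hP0.le
          have e2 : M * (2 * X * C / S * (32 * S * b)) ≤ 64 * C * X * (P * G ^ i * (4 * E)) := by
            rw [h5]
            exact mul_le_mul_of_nonneg_left ih' (by positivity)
          linarith
      _ ≤ P * X * G ^ (i + 1) * (4 * E) := by
          rw [pow_succ, hGC]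
          rw [hGC] at hGi hG1
          have e1 : P * X ≤ P * X * E := le_mul_of_one_le_right (by positivity) hE1
          have e2 : P * X * E ≤ P * X * E * ((128 * C) ^ i * C) := by
            apply le_mul_of_one_le_right (by positivity)
            have : 1 ≤ C := one_le_pow₀ (by norm_num)
            nlinarith
          have e3 : P * X * E * ((128 * C) ^ i * C) = P * X * (128 * C) ^ i * C * E := by ring
          have e4 : 0 ≤ P * X * (128 * C) ^ i * C * E := by positivity
          nlinarith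

/-- all integers up to `2^(a m - 2)` are good for a suitable pool -/
theorem pool_a (hSM : S_SM) (hPHI : S_PHI) (hRD : S_RD) (hEXC : S_EXC) (hREP : S_REP)
    (hC : S_CHEB) {a μ : ℕ} (h : Par a μ) :
    ∃ N : ℕ, 0 < N ∧ N ≤ 2 ^ ((64 * a + 3) * (16384 * μ)) ∧
      ∀ A, 1 ≤ A → A ≤ 2 ^ (a * (1024 * μ) - 2) → Good (2 * (a + 1)) N A := by
  classical
  have hμ := h.mu_pos
  have ha := h.ha
  obtain ⟨ω, hω⟩ := exists_pool hSM hPHI hRD hC h
  have hb := bad_le hEXC hC h rfl rfl ω hω a le_rfl
  have hQ0 : ∀ p ∈ Qs (16 * (4 * a)), 0 < p := fun p hp => (mem_Qs.1 hp).2.pos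
  have hN0 : 0 < NN ω := NN_pos hQ0 ω
  refine ⟨NN ω, hN0, ?_, ?_⟩
  · have := NN_le (fun p hp => (mem_Qs.1 hp).1.2) ω
    rw [← pow_mul] at this
    refine this.trans (le_of_eq ?_)
    congr 1
    ring
  set N := NN ω with hN
  set m := 1024 * μ with hm
  have hm1 : 1024 * 1 ≤ m := by omega
  have ham : m ≤ a * m := Nat.le_mul_of_pos_left _ (by omega)
  -- even numbers in (2^(am-1), 2^(am)] are good
  have heven : ∀ n, 2 ^ (a * m - 1) < n → n ≤ 2 ^ (a * m) → 2 ∣ n → Good (2 * (a + 1)) N n := by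
    intro n hn1 hn2 hn3
    set K := (Lv a μ a).filter (fun t => t ≤ n ∧ n - t ∈ Lv a μ a) with hK
    have hexp : 128 * a * (8 * μ) = a * m := by rw [hm]; ring
    have hLa : ∀ t, t ∈ Lv a μ a ↔ (2 ^ (a * m - 3) < t ∧ t ≤ 2 ^ (a * m)) ∧ Rough (2 ^ (8 * μ)) t := by
      intro t
      unfold Lv
      rw [if_neg (by omega), if_neg (by omega), Finset.mem_filter, Finset.mem_Ioc]
    have h1 := hREP a (8 * μ) n (by omega) (by omega) h.h2 (by rw [hexp]; exact hn1)
      (by rw [hexp]; exact hn2) hn3 K (by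
        intro t ht1 ht2 ht3 ht4
        rw [hexp] at ht1 ht2
        rw [hK, Finset.mem_filter, hLa, hLa]
        have ht5 : t < n := lt_of_le_of_lt (Nat.le_add_right _ _) ht2
        exact ⟨⟨⟨ht1, ht5.le.trans hn2⟩, ht3⟩, ht5.le,
          ⟨Nat.lt_sub_of_add_lt (by rw [add_comm]; exact ht2), (Nat.sub_le _ _).trans hn2⟩, ht4⟩)
    rw [hexp] at h1
    by_contra hcon
    have h2 : K.card ≤ 2 * (bad (a + 1) N (Lv a μ a)).card := by
      have h3 : K ⊆ (bad (a + 1) N (Lv a μ a)) ∪
          (bad (a + 1) N (Lv a μ a)).image (fun t => n - t) := by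
        intro t ht
        rw [hK, Finset.mem_filter] at ht
        obtain ⟨ht1, ht2, ht3⟩ := ht
        rw [Finset.mem_union, Finset.mem_image]
        by_contra hno
        push Not at hno
        obtain ⟨hno1, hno2⟩ := hno
        have g1 : Good (a + 1) N t := by
          by_contra hg
          exact hno1 (by rw [bad, Finset.mem_filter]; exact ⟨ht1, hg⟩)
        have g2 : Good (a + 1) N (n - t) := by
          by_contra hg
          refine hno2 (n - t) (by rw [bad, Finset.mem_filter]; exact ⟨ht3, hg⟩) ?_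
          omega
        apply hcon
        have g3 := g1.add g2
        rw [show t + (n - t) = n by omega] at g3
        exact g3.mono (by omega)
      calc K.card ≤ _ := Finset.card_le_card h3
        _ ≤ (bad (a + 1) N (Lv a μ a)).card + ((bad (a + 1) N (Lv a μ a)).image (fun t => n - t)).card :=
            Finset.card_union_le _ _
        _ ≤ (bad (a + 1) N (Lv a μ a)).card + (bad (a + 1) N (Lv a μ a)).card := by
            apply Nat.add_le_add_left
            exact Finset.card_image_le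
        _ = 2 * (bad (a + 1) N (Lv a μ a)).card := by ring
    have h1' : (2 : ℝ) ^ (a * m) ≤ K.card * 2 ^ (40 * a + 60) := by exact_mod_cast h1
    have h2' : (K.card : ℝ) ≤ 2 * (bad (a + 1) N (Lv a μ a)).card := by exact_mod_cast h2
    have h4 : (2 : ℝ) ^ (a * m) * 2 ^ (4 * μ) ≤
        2 ^ (a * m) * (2 * (2 ^ (2 * a + 11)) ^ a * 2 ^ (16 * a + 10) * 2 ^ (40 * a + 60)) := by
      calc (2 : ℝ) ^ (a * m) * 2 ^ (4 * μ) ≤ (K.card * 2 ^ (40 * a + 60)) * 2 ^ (4 * μ) := by
            gcongr
        _ ≤ (2 * (bad (a + 1) N (Lv a μ a)).card * 2 ^ (40 * a + 60)) * 2 ^ (4 * μ) := by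
            gcongr
        _ = 2 * 2 ^ (40 * a + 60) * ((bad (a + 1) N (Lv a μ a)).card * 2 ^ (4 * μ)) := by ring
        _ ≤ 2 * 2 ^ (40 * a + 60) * (2 ^ (a * m) * (2 ^ (2 * a + 11)) ^ a * 2 ^ (16 * a + 10)) := by
            gcongr
        _ = _ := by ring
    have h5 : (2 : ℝ) ^ (4 * μ) ≤ 2 * (2 ^ (2 * a + 11)) ^ a * 2 ^ (16 * a + 10) * 2 ^ (40 * a + 60) :=
      le_of_mul_le_mul_left h4 (by positivity)
    have h6 : (2 : ℝ) * (2 ^ (2 * a + 11)) ^ a * 2 ^ (16 * a + 10) * 2 ^ (40 * a + 60) =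
        2 ^ (1 + (2 * a + 11) * a + (16 * a + 10) + (40 * a + 60)) := by
      rw [← pow_mul, ← pow_succ', ← pow_add, ← pow_add]
      congr 1
      ring
    rw [h6] at h5
    have h7 := (pow_le_pow_iff_right₀ (by norm_num : (1 : ℝ) < 2)).1 h5
    have h8 := h.h1
    have h9 : a * (a * a) ≤ μ := by
      calc a * (a * a) = a ^ 3 := by ring
        _ ≤ μ := h8
    have h10 : 20 * (a * a) ≤ a * (a * a) := Nat.mul_le_mul_right _ ha
    have h11 : 20 * a ≤ a * a := Nat.mul_le_mul_right _ ha
    have h12 : (2 * a + 11) * a = 2 * (a * a) + 11 * a := by ring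
    rw [h12] at h7
    omega
  -- scaling
  intro A hA1 hA2
  have e1 : 2 ^ (a * m - 1) = 2 * 2 ^ (a * m - 2) := by
    rw [← pow_succ']; congr 1; omega
  have e2 : 2 ^ (a * m) = 2 * 2 ^ (a * m - 1) := by
    rw [← pow_succ']; congr 1; omega
  set w := 2 ^ (a * m) / (2 * A) with hw
  have hw1 : 2 * A * w ≤ 2 ^ (a * m) := Nat.mul_div_le _ _
  have hw2 : 2 ^ (a * m) < 2 * A * (w + 1) := Nat.lt_mul_div_succ _ (by omega)
  have hw3 : 2 ^ (a * m - 1) < 2 * A * w := by
    have : 2 * A * (w + 1) = 2 * A * w + 2 * A := by ring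
    omega
  have hw0 : 0 < w := by
    rcases Nat.eq_zero_or_pos w with h0 | h0
    · rw [h0] at hw3; simp at hw3
    · exact h0
  have hg := heven (2 * A * w) hw3 hw1 (Dvd.dvd.mul_right (Dvd.intro _ rfl) _)
  rw [show 2 * A * w = A * (2 * w) by ring] at hg
  exact hg.of_mul (by omega)

end Pool.Agent.H51.EG
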