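import Pool.Agent.H51.EG.Step

open Finset

namespace Pool.Agent.H51.EG

theorem card_KA_le (T' : Finset ℕ) (A : ℕ) : (KA T' A).card ≤ T'.card := by
  classical
  unfold KA
  exact Finset.card_image_le.trans (Finset.card_filter_le _ _)

theorem card_Ke_le (T : Finset ℕ) (e : ℕ) : (Ke T e).card ≤ T.card := by
  classical
  unfold Ke
  exact Finset.card_image_le.trans (Finset.card_filter_le _ _)

theorem Gam_nonneg (K : Finset (ℕ × ℕ)) : 0 ≤ Gam K := by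
  unfold Gam
  exact Finset.sum_nonneg fun k _ => by positivity

/-- distinct residues: at most one landing for one modulus -/
theorem W_KA_le_one (T' : Finset ℕ) (A v : ℕ) (hT : ∀ e ∈ T', e < A) : (W (KA T' A) v : ℝ) ≤ 1 := by
  classical
  have : W (KA T' A) v ≤ 1 := by
    unfold W
    rw [Finset.card_le_one]
    intro x hx y hy
    rw [Finset.mem_filter, KA, Finset.mem_image] at hx hy
    obtain ⟨⟨e, he, rfl⟩, hdx⟩ := hx
    obtain ⟨⟨f, hf, rfl⟩, hdy⟩ := hy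
    rw [Finset.mem_filter] at he hf
    simp only at hdx hdy
    have h1 := hT e he.1
    have h2 := hT f hf.1
    have h3 : v + e ≡ v + f [MOD A] :=
      ((Nat.modEq_zero_iff_dvd.2 hdx).trans (Nat.modEq_zero_iff_dvd.2 hdy).symm)
    have h4 : e ≡ f [MOD A] := Nat.ModEq.add_left_cancel' v h3
    have h5 : e = f := by
      have := h4
      unfold Nat.ModEq at this
      rwa [Nat.mod_eq_of_lt h1, Nat.mod_eq_of_lt h2] at this
    rw [h5]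
  exact_mod_cast this

theorem av_few (hSM : S_SM) {Q : Finset ℕ} {s d : ℕ} {η c κ : ℝ} (hQ : Q.Nonempty) (h0 : 0 ≤ η)
    (h1 : η ≤ 1) (hd : d ≤ s) (T T' : Finset ℕ) (hc : 0 < c)
    (hT : ∀ A ∈ T, 0 < A ∧ NE Q η A ∧ (∀ p ∈ Q, Nat.Coprime p A) ∧ (∀ e ∈ T', e < A) ∧
      c ≤ Gam (KA T' A)) (hκ : (T'.card : ℝ) ≤ κ) :
    av (fun ω : Om Q s => few T T' ω) ≤ T.card *
      (12 * κ ^ 2 * η ^ d / c ^ 2 + 4 * 4 ^ d * (5 / 8) ^ s * (1 / c + κ * η ^ d / c ^ 2)) := by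
  classical
  unfold few
  rw [av_sum, ← nsmul_eq_mul, ← Finset.sum_const]
  refine Finset.sum_le_sum fun A hA => ?_
  obtain ⟨hA0, hNE, hcop, hlt, hcA⟩ := hT A hA
  set K := KA T' A with hK
  set Γ := Gam K with hΓ
  have hΓ0 : 0 < Γ := lt_of_lt_of_le hc hcA
  have hKc : (K.card : ℝ) ≤ κ := le_trans (by exact_mod_cast card_KA_le T' A) hκ
  have hK0 : (0 : ℝ) ≤ K.card := Nat.cast_nonneg _
  have h2 := hSM Q s d η 1 K hQ h0 h1 hd le_rfl (by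
    intro k hk
    rw [hK, KA, Finset.mem_image] at hk
    obtain ⟨e, he, rfl⟩ := hk
    rw [Finset.mem_filter] at he
    exact ⟨hA0, hNE, hcop, he.2⟩) (fun ω σ => W_KA_le_one T' A _ hlt)
  have h2s : (0 : ℝ) < 2 ^ s := by positivity
  have h3 : ∀ ω : Om Q s, (if Z K ω < 2 ^ s * Γ / 2 then (1 : ℝ) else 0) ≤
      4 / (4 ^ s * Γ ^ 2) * (Z K ω - 2 ^ s * Γ) ^ 2 := by
    intro ω
    split_ifs with h
    · rw [div_mul_eq_mul_div, le_div_iff₀ (by positivity)]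
      have h4 : (2 : ℝ) ^ s * Γ / 2 ≤ 2 ^ s * Γ - Z K ω := by linarith
      have h5 : ((2 : ℝ) ^ s * Γ / 2) ^ 2 ≤ (2 ^ s * Γ - Z K ω) ^ 2 :=
        pow_le_pow_left₀ (by positivity) h4 2
      have h6 : ((4 : ℝ)) ^ s = (2 ^ s) ^ 2 := by
        rw [← pow_mul, mul_comm s 2, pow_mul]; norm_num
      rw [h6]
      nlinarith [h5]
    · positivity
  have h4 := av_mono h3
  rw [av_mul_left] at h4
  have h5 : 4 / (4 ^ s * Γ ^ 2) * av (fun ω : Om Q s => (Z K ω - 2 ^ s * Γ) ^ 2) ≤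
      4 / (4 ^ s * Γ ^ 2) * (3 * 4 ^ s * (K.card : ℝ) ^ 2 * η ^ d +
        4 ^ d * (5 / 2) ^ s * 1 * (Γ + K.card * η ^ d)) :=
    mul_le_mul_of_nonneg_left h2 (by positivity)
  refine (h4.trans h5).trans ?_
  have hηd : 0 ≤ η ^ d := pow_nonneg h0 d
  have h6 : 4 / (4 ^ s * Γ ^ 2) * (3 * 4 ^ s * (K.card : ℝ) ^ 2 * η ^ d +
        4 ^ d * (5 / 2) ^ s * 1 * (Γ + K.card * η ^ d)) =
      12 * (K.card : ℝ) ^ 2 * η ^ d / Γ ^ 2 +
        4 * 4 ^ d * (5 / 8) ^ s * (1 / Γ + K.card * η ^ d / Γ ^ 2) := by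
    have : ((5 : ℝ) / 8) ^ s = (5 / 2) ^ s / 4 ^ s := by
      rw [← div_pow]; norm_num
    rw [this]
    have h4s : (4 : ℝ) ^ s ≠ 0 := by positivity
    field_simp
    ring
  rw [h6]
  have h7 : 12 * (K.card : ℝ) ^ 2 * η ^ d / Γ ^ 2 ≤ 12 * κ ^ 2 * η ^ d / c ^ 2 := by
    apply div_le_div₀ (by positivity) _ (by positivity) (pow_le_pow_left₀ hc.le hcA 2)
    have : (K.card : ℝ) ^ 2 ≤ κ ^ 2 := pow_le_pow_left₀ hK0 hKc 2
    have := mul_le_mul_of_nonneg_right this hηd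
    nlinarith
  have h8 : 1 / Γ ≤ 1 / c := one_div_le_one_div_of_le hc hcA
  have h9 : (K.card : ℝ) * η ^ d / Γ ^ 2 ≤ κ * η ^ d / c ^ 2 := by
    apply div_le_div₀ _ _ (by positivity) (pow_le_pow_left₀ hc.le hcA 2)
    · exact mul_nonneg (hK0.trans hKc) hηd
    · exact mul_le_mul_of_nonneg_right hKc hηd
  have h10 : 4 * 4 ^ d * (5 / 8 : ℝ) ^ s * (1 / Γ + K.card * η ^ d / Γ ^ 2) ≤
      4 * 4 ^ d * (5 / 8) ^ s * (1 / c + κ * η ^ d / c ^ 2) :=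
    mul_le_mul_of_nonneg_left (by linarith) (by positivity)
  linarith

theorem av_exc (hSM : S_SM) {Q : Finset ℕ} {s d : ℕ} {η D κ : ℝ} (hQ : Q.Nonempty) (h0 : 0 ≤ η)
    (h1 : η ≤ 1) (hd : d ≤ s) (hD : 1 ≤ D) (T T' : Finset ℕ)
    (hT : ∀ A ∈ T, 0 < A ∧ NE Q η A ∧ (∀ p ∈ Q, Nat.Coprime p A))
    (hG : ∀ e ∈ T', Gam (Ke T e) ≤ 16)
    (hW : ∀ e ∈ T', ∀ (ω : Om Q s) (σ : Fin s → Bool), (W (Ke T e) (u ω σ) : ℝ) ≤ D)
    (hκ : (T.card : ℝ) ≤ κ) :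
    av (fun ω : Om Q s => exc T T' ω) ≤ T'.card *
      ((3 * 4 ^ s * κ ^ 2 * η ^ d + 4 ^ d * (5 / 2) ^ s * D * (16 + κ * η ^ d)) / (16 * 2 ^ s)) := by
  classical
  unfold exc
  rw [av_sum, ← nsmul_eq_mul, ← Finset.sum_const]
  refine Finset.sum_le_sum fun e he => ?_
  set K := Ke T e with hK
  set Γ := Gam K with hΓ
  have hΓ0 : 0 ≤ Γ := Gam_nonneg K
  have hΓ16 : Γ ≤ 16 := hG e he
  have hKc : (K.card : ℝ) ≤ κ := le_trans (by exact_mod_cast card_Ke_le T e) hκ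
  have hK0 : (0 : ℝ) ≤ K.card := Nat.cast_nonneg _
  have h2 := hSM Q s d η D K hQ h0 h1 hd hD (by
    intro k hk
    rw [hK, Ke, Finset.mem_image] at hk
    obtain ⟨A, hA, rfl⟩ := hk
    rw [Finset.mem_filter] at hA
    obtain ⟨a1, a2, a3⟩ := hT A hA.1
    exact ⟨a1, a2, a3, hA.2⟩) (hW e he)
  have h2s : (0 : ℝ) < 2 ^ s := by positivity
  have h3 : ∀ ω : Om Q s, max 0 (Z K ω - 32 * 2 ^ s) ≤
      1 / (16 * 2 ^ s) * (Z K ω - 2 ^ s * Γ) ^ 2 := by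
    intro ω
    apply max_le
    · positivity
    · by_cases h : Z K ω ≤ 32 * 2 ^ s
      · have : (0 : ℝ) ≤ 1 / (16 * 2 ^ s) * (Z K ω - 2 ^ s * Γ) ^ 2 := by positivity
        linarith
      · push Not at h
        rw [div_mul_eq_mul_div, le_div_iff₀ (by positivity), one_mul]
        have h4 : 2 ^ s * Γ ≤ 2 ^ s * 16 := mul_le_mul_of_nonneg_left hΓ16 h2s.le
        have h5 : (0 : ℝ) ≤ 2 ^ s * Γ := by positivity
        nlinarith
  have h4 := av_mono h3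
  rw [av_mul_left] at h4
  have h5 : 1 / (16 * 2 ^ s) * av (fun ω : Om Q s => (Z K ω - 2 ^ s * Γ) ^ 2) ≤
      1 / (16 * 2 ^ s) * (3 * 4 ^ s * (K.card : ℝ) ^ 2 * η ^ d +
        4 ^ d * (5 / 2) ^ s * D * (Γ + K.card * η ^ d)) :=
    mul_le_mul_of_nonneg_left h2 (by positivity)
  refine (h4.trans h5).trans ?_
  rw [one_div, inv_mul_eq_div]
  apply div_le_div_of_nonneg_right _ (by positivity)
  have hηd : 0 ≤ η ^ d := pow_nonneg h0 d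
  have h7 : 3 * 4 ^ s * (K.card : ℝ) ^ 2 * η ^ d ≤ 3 * 4 ^ s * κ ^ 2 * η ^ d := by
    have : (K.card : ℝ) ^ 2 ≤ κ ^ 2 := pow_le_pow_left₀ hK0 hKc 2
    gcongr
  have h8 : 4 ^ d * (5 / 2 : ℝ) ^ s * D * (Γ + K.card * η ^ d) ≤
      4 ^ d * (5 / 2) ^ s * D * (16 + κ * η ^ d) := by
    gcongr
  linarith

end Pool.Agent.H51.EG
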