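import Pool.Agent.H51.EG.Alg

open Finset

namespace Pool.Agent.H51.EG

open Classical in
theorem W_cast (K : Finset (ℕ × ℕ)) (v : ℕ) :
    (W K v : ℝ) = ∑ k ∈ K, if k.1 ∣ v + k.2 then (1 : ℝ) else 0 := by
  unfold W
  rw [Finset.sum_boole]

theorem u_dvd {Q : Finset ℕ} {s : ℕ} (ω : Om Q s) (σ : Fin s → Bool) : u ω σ ∣ NN ω := by
  unfold u NN
  exact Finset.prod_dvd_prod_of_dvd _ _ fun i _ => Finset.dvd_prod_of_mem _ (mem_univ (σ i))

theorem NN_pos {Q : Finset ℕ} {s : ℕ} (hQ : ∀ p ∈ Q, 0 < p) (ω : Om Q s) : 0 < NN ω := by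
  unfold NN
  exact Finset.prod_pos fun i _ => Finset.prod_pos fun b _ => hQ _ (ω i b).2

theorem u_pos {Q : Finset ℕ} {s : ℕ} (hQ : ∀ p ∈ Q, 0 < p) (ω : Om Q s) (σ : Fin s → Bool) :
    0 < u ω σ := by
  unfold u
  exact Finset.prod_pos fun i _ => hQ _ (ω i (σ i)).2

theorem u_le {Q : Finset ℕ} {s B : ℕ} (hQ : ∀ p ∈ Q, p ≤ B) (ω : Om Q s) (σ : Fin s → Bool) :
    u ω σ ≤ B ^ s := by
  unfold u
  calc ∏ i, (ω i (σ i) : ℕ) ≤ ∏ _i : Fin s, B := Finset.prod_le_prod' fun i _ => hQ _ (ω i (σ i)).2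
    _ = B ^ s := by simp

theorem NN_le {Q : Finset ℕ} {s B : ℕ} (hQ : ∀ p ∈ Q, p ≤ B) (ω : Om Q s) :
    NN ω ≤ B ^ (2 * s) := by
  unfold NN
  calc ∏ i, ∏ b, (ω i b : ℕ) ≤ ∏ _i : Fin s, B ^ 2 := by
        refine Finset.prod_le_prod' fun i _ => ?_
        calc ∏ b, (ω i b : ℕ) ≤ ∏ _b : Bool, B := Finset.prod_le_prod' fun b _ => hQ _ (ω i b).2
          _ = B ^ 2 := by simp
    _ = B ^ (2 * s) := by simp [pow_mul]

theorem exists_lt_of_av {Q : Finset ℕ} {s : ℕ} (hQ : Q.Nonempty) (f : Om Q s → ℝ) {c : ℝ}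
    (h : av f < c) : ∃ ω, f ω < c := by
  by_contra hcon
  push Not at hcon
  haveI : Nonempty Q := hQ.to_subtype
  have hcard : (0 : ℝ) < Fintype.card (Om Q s) := by exact_mod_cast Fintype.card_pos
  have : c ≤ av f := by
    unfold av
    rw [le_div_iff₀ hcard]
    calc c * Fintype.card (Om Q s) = ∑ _ω : Om Q s, c := by simp [mul_comm]
      _ ≤ ∑ ω, f ω := Finset.sum_le_sum fun ω _ => hcon ω
  linarith

theorem av_add {Q : Finset ℕ} {s : ℕ} (f g : Om Q s → ℝ) :
    av (fun ω => f ω + g ω) = av f + av g := by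
  unfold av
  rw [Finset.sum_add_distrib, add_div]

theorem av_sum {Q : Finset ℕ} {s : ℕ} {ι : Type*} (J : Finset ι) (f : ι → Om Q s → ℝ) :
    av (fun ω => ∑ j ∈ J, f j ω) = ∑ j ∈ J, av (f j) := by
  unfold av
  rw [Finset.sum_comm, Finset.sum_div]

theorem av_mul_left {Q : Finset ℕ} {s : ℕ} (c : ℝ) (f : Om Q s → ℝ) :
    av (fun ω => c * f ω) = c * av f := by
  unfold av
  rw [← Finset.mul_sum, mul_div_assoc]

theorem av_mono {Q : Finset ℕ} {s : ℕ} {f g : Om Q s → ℝ} (h : ∀ ω, f ω ≤ g ω) :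
    av f ≤ av g := by
  unfold av
  exact div_le_div_of_nonneg_right (Finset.sum_le_sum fun ω _ => h ω) (Nat.cast_nonneg _)

theorem av_nonneg {Q : Finset ℕ} {s : ℕ} {f : Om Q s → ℝ} (h : ∀ ω, 0 ≤ f ω) : 0 ≤ av f := by
  unfold av
  exact div_nonneg (Finset.sum_nonneg fun ω _ => h ω) (Nat.cast_nonneg _)

open Classical in
/-- the conditions `A ∣ u + e` for one modulus `A`, `e ∈ T'` -/
noncomputable def KA (T' : Finset ℕ) (A : ℕ) : Finset (ℕ × ℕ) :=
  (T'.filter (fun e => Nat.Coprime e A)).image (fun e => (A, e))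

open Classical in
/-- the conditions `A ∣ u + e` for one `e`, `A ∈ T` -/
noncomputable def Ke (T : Finset ℕ) (e : ℕ) : Finset (ℕ × ℕ) :=
  (T.filter (fun A => Nat.Coprime e A)).image (fun A => (A, e))

open Classical in
theorem W_KA (T' : Finset ℕ) (A v : ℕ) :
    (W (KA T' A) v : ℝ) = ∑ e ∈ T', if Nat.Coprime e A ∧ A ∣ v + e then (1 : ℝ) else 0 := by
  rw [W_cast, KA, Finset.sum_image (by intro x _ y _ h; simpa using h), Finset.sum_filter]
  refine Finset.sum_congr rfl fun e' _ => ?_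
  by_cases h : Nat.Coprime e' A <;> by_cases h' : A ∣ v + e' <;> simp [h, h']

open Classical in
theorem W_Ke (T : Finset ℕ) (e v : ℕ) :
    (W (Ke T e) v : ℝ) = ∑ A ∈ T, if Nat.Coprime e A ∧ A ∣ v + e then (1 : ℝ) else 0 := by
  rw [W_cast, Ke, Finset.sum_image (by intro x _ y _ h; simpa using h), Finset.sum_filter]
  refine Finset.sum_congr rfl fun A' _ => ?_
  by_cases h : Nat.Coprime e A' <;> by_cases h' : A' ∣ v + e <;> simp [h, h']

open Classical in
/-- the elements of `T` that are not good -/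
noncomputable def bad (k N : ℕ) (T : Finset ℕ) : Finset ℕ := T.filter (fun A => ¬ Good k N A)

open Classical in
/-- the number of moduli in `T` with few landings in `T'` -/
noncomputable def few {Q : Finset ℕ} {s : ℕ} (T T' : Finset ℕ) (ω : Om Q s) : ℝ :=
  ∑ A ∈ T, if Z (KA T' A) ω < 2 ^ s * Gam (KA T' A) / 2 then (1 : ℝ) else 0

/-- the excess of landings -/
noncomputable def exc {Q : Finset ℕ} {s : ℕ} (T T' : Finset ℕ) (ω : Om Q s) : ℝ :=
  ∑ e ∈ T', max 0 (Z (Ke T e) ω - 32 * 2 ^ s)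

/-- one step of the density induction (deterministic part); `T` = nonexceptional moduli -/
theorem step_det {Q : Finset ℕ} {s : ℕ} (hQ : ∀ p ∈ Q, 0 < p) (ω : Om Q s) (T T' : Finset ℕ)
    (k : ℕ) (c : ℝ) (hc : 0 < c) (hG : ∀ A ∈ T, c ≤ Gam (KA T' A)) :
    ((bad (k + 1) (NN ω) T).card : ℝ) ≤
      few T T' ω + 2 / (c * 2 ^ s) * (32 * 2 ^ s * (bad k (NN ω) T').card + exc T T' ω) := by
  classical
  set N := NN ω with hN
  have hN0 : 0 < N := NN_pos hQ ω
  set B := bad (k + 1) N T with hB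
  set B' := bad k N T' with hB'
  set B3 := B.filter (fun A => ¬ Z (KA T' A) ω < 2 ^ s * Gam (KA T' A) / 2) with hB3
  have h2s : (0 : ℝ) < 2 ^ s := by positivity
  -- split
  have h1 : (B.card : ℝ) ≤ few T T' ω + B3.card := by
    have h2 : (B.card : ℝ) = ((B.filter (fun A => Z (KA T' A) ω < 2 ^ s * Gam (KA T' A) / 2)).card : ℝ)
        + B3.card := by
      rw [hB3]
      have := Finset.card_filter_add_card_filter_not (s := B)
        (fun A => Z (KA T' A) ω < 2 ^ s * Gam (KA T' A) / 2)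
      rw [← this]; push_cast; rfl
    have h3 : ((B.filter (fun A => Z (KA T' A) ω < 2 ^ s * Gam (KA T' A) / 2)).card : ℝ) ≤ few T T' ω := by
      unfold few
      rw [Finset.sum_boole]
      have : B.filter (fun A => Z (KA T' A) ω < 2 ^ s * Gam (KA T' A) / 2) ⊆
          T.filter (fun A => Z (KA T' A) ω < 2 ^ s * Gam (KA T' A) / 2) := by
        apply Finset.filter_subset_filter
        rw [hB]; exact Finset.filter_subset _ _
      exact_mod_cast Finset.card_le_card this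
    linarith
  -- bad moduli land only on bad elements
  have h4 : ∀ A ∈ B, Z (KA T' A) ω = ∑ σ : Fin s → Bool, ∑ e ∈ B',
      if Nat.Coprime e A ∧ A ∣ u ω σ + e then (1 : ℝ) else 0 := by
    intro A hA
    unfold Z
    refine Finset.sum_congr rfl fun σ _ => ?_
    rw [W_KA]
    symm
    apply Finset.sum_subset
    · rw [hB']; exact Finset.filter_subset _ _
    · intro e he he'
      rw [if_neg]
      rintro ⟨_, hdv⟩
      have hgood : Good k N e := by
        by_contra hg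
        exact he' (by rw [hB', bad, Finset.mem_filter]; exact ⟨he, hg⟩)
      rw [hB, bad, Finset.mem_filter] at hA
      exact hA.2 (good_step hN0 (u_dvd ω σ) hdv hgood)
  have h5 : ∑ A ∈ B3, Z (KA T' A) ω ≤ ∑ e ∈ B', Z (Ke T e) ω := by
    have hB3B : B3 ⊆ B := Finset.filter_subset _ _
    have hBT : B ⊆ T := by rw [hB]; exact Finset.filter_subset _ _
    calc ∑ A ∈ B3, Z (KA T' A) ω = ∑ A ∈ B3, ∑ σ : Fin s → Bool, ∑ e ∈ B',
          (if Nat.Coprime e A ∧ A ∣ u ω σ + e then (1 : ℝ) else 0) :=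
          Finset.sum_congr rfl fun A hA => h4 A (hB3B hA)
      _ ≤ ∑ A ∈ T, ∑ σ : Fin s → Bool, ∑ e ∈ B',
          (if Nat.Coprime e A ∧ A ∣ u ω σ + e then (1 : ℝ) else 0) := by
          apply Finset.sum_le_sum_of_subset_of_nonneg (hB3B.trans hBT)
          intro A _ _
          exact Finset.sum_nonneg fun σ _ => Finset.sum_nonneg fun e _ => by split_ifs <;> norm_num
      _ = ∑ e ∈ B', Z (Ke T e) ω := by
          rw [Finset.sum_comm]
          have : ∀ σ : Fin s → Bool, ∑ A ∈ T, ∑ e ∈ B',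
              (if Nat.Coprime e A ∧ A ∣ u ω σ + e then (1 : ℝ) else 0) =
              ∑ e ∈ B', ∑ A ∈ T, (if Nat.Coprime e A ∧ A ∣ u ω σ + e then (1 : ℝ) else 0) :=
            fun σ => Finset.sum_comm
          rw [Finset.sum_congr rfl fun σ _ => this σ, Finset.sum_comm]
          refine Finset.sum_congr rfl fun e _ => ?_
          unfold Z
          exact Finset.sum_congr rfl fun σ _ => (W_Ke T e (u ω σ)).symm
  have h6 : ∑ e ∈ B', Z (Ke T e) ω ≤ 32 * 2 ^ s * B'.card + exc T T' ω := by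
    calc ∑ e ∈ B', Z (Ke T e) ω ≤ ∑ e ∈ B', (32 * 2 ^ s + max 0 (Z (Ke T e) ω - 32 * 2 ^ s)) := by
          refine Finset.sum_le_sum fun e _ => ?_
          have := le_max_right 0 (Z (Ke T e) ω - 32 * 2 ^ s)
          linarith
      _ = 32 * 2 ^ s * B'.card + ∑ e ∈ B', max 0 (Z (Ke T e) ω - 32 * 2 ^ s) := by
          rw [Finset.sum_add_distrib, Finset.sum_const, nsmul_eq_mul]; ring
      _ ≤ 32 * 2 ^ s * B'.card + exc T T' ω := by
          unfold exc
          have : B' ⊆ T' := by rw [hB']; exact Finset.filter_subset _ _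
          have := Finset.sum_le_sum_of_subset_of_nonneg this
            (f := fun e => max 0 (Z (Ke T e) ω - 32 * 2 ^ s)) (fun e _ _ => le_max_left _ _)
          linarith
  have h7 : (B3.card : ℝ) * (2 ^ s * c / 2) ≤ ∑ A ∈ B3, Z (KA T' A) ω := by
    calc (B3.card : ℝ) * (2 ^ s * c / 2) = ∑ _A ∈ B3, (2 ^ s * c / 2) := by simp
      _ ≤ ∑ A ∈ B3, Z (KA T' A) ω := by
          refine Finset.sum_le_sum fun A hA => ?_
          rw [hB3, Finset.mem_filter] at hA
          have h8 := hA.2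
          push Not at h8
          have hAT : A ∈ T := by
            have := hA.1
            rw [hB, bad, Finset.mem_filter] at this
            exact this.1
          have h9 := hG A hAT
          have : 2 ^ s * c / 2 ≤ 2 ^ s * Gam (KA T' A) / 2 := by
            have := mul_le_mul_of_nonneg_left h9 h2s.le
            linarith
          linarith
  have h8 : (B3.card : ℝ) ≤ 2 / (c * 2 ^ s) * (32 * 2 ^ s * B'.card + exc T T' ω) := by
    rw [div_mul_eq_mul_div, le_div_iff₀ (by positivity)]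
    nlinarith [h5, h6, h7]
  linarith

end Pool.Agent.H51.EG
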